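import Mathlib
import Pool.Agent.Y698.Ua
import Pool.Agent.Y715.Z.Min

/-!
# Local computations on `y² = x³ + δ² x`
-/

set_option autoImplicit false
set_option linter.unusedSectionVars false

namespace Pool.Agent.R428.G

open scoped Classical
open WeierstrassCurve WithZero
open Pool.Agent.Y682 (S1 S2)
open Pool.Agent.Y696 (NonsingRed)
open Pool.Agent.Y715.Z (q4 q4_eqn ns_some ns_bad ns_good v_three_le exp_sq)
open Pool.Agent.Y698 (Wr Te dv dv_T dv_ne Mq GP mem_GP GP_index)

section loc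

variable {L : Type} [Field L] {w : Valuation L ℤᵐ⁰}

lemma ex_exp {x : L} (hx : x ≠ 0) : ∃ n : ℤ, w x = exp n :=
  ⟨log (w x), (exp_log ((Valuation.ne_zero_iff _).2 hx)).symm⟩

lemma w_i {i : L} (hi : i ^ 2 = -1) : w i = 1 := by
  have h1 := congrArg w hi
  rw [map_pow, Valuation.map_neg, map_one] at h1
  rcases lt_trichotomy (w i) 1 with h | h | h
  · exact absurd h1 (ne_of_lt (pow_lt_one₀ zero_le h two_ne_zero))
  · exact h
  · exact absurd h1 (ne_of_gt (one_lt_pow₀ h two_ne_zero))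

lemma i_ne {i : L} (hi : i ^ 2 = -1) : i ≠ 0 := by
  rintro rfl
  rw [zero_pow two_ne_zero] at hi
  have : (1 : L) = 0 := by linear_combination hi
  exact one_ne_zero this

lemma exp_lt_one' {n : ℤ} (h : n < 0) : (exp n : ℤᵐ⁰) < 1 := by
  rw [← exp_zero, exp_lt_exp]; exact h

lemma lt_succ {x : ℤᵐ⁰} {n : ℤ} (h : x < exp n) : x ≤ exp (n - 1) := by
  by_cases hx : x = 0
  · rw [hx]; exact zero_le
  · rw [← exp_log hx] at h ⊢
    rw [exp_lt_exp] at h
    rw [exp_le_exp]
    omega

/-- the local image at a prime dividing `D` exactly once -/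
lemma cls2 (hens : ∀ t : L, w t < 1 → ∃ y : L, y ^ 2 = 1 + t) {D i m : L}
    (hi : i ^ 2 = -1) (hD : w D = exp (-1 : ℤ)) (h : S1 0 (D ^ 2) m) :
    ∃ c : L, c ≠ 0 ∧ (m = c ^ 2 ∨ m = i * D * c ^ 2) := by
  have hD0 : D ≠ 0 := by
    rintro rfl
    rw [map_zero] at hD
    exact exp_ne_zero hD.symm
  have hwi := w_i (w := w) hi
  have hi0 := i_ne hi
  rcases h with h | h | ⟨hm, y, hy⟩
  · exact ⟨1, one_ne_zero, Or.inl (by rw [h, one_pow])⟩
  · exact ⟨D, hD0, Or.inl h⟩
  · have hwm : w m ≠ 0 := (Valuation.ne_zero_iff _).2 hm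
    have hwD : w D ≠ 0 := (Valuation.ne_zero_iff _).2 hD0
    rw [zero_mul, add_zero] at hy
    have hne : ∀ t r : L, r ^ 2 = 1 + t → w t < 1 → r ≠ 0 := by
      rintro t r hr h1 rfl
      have h2 : t = -1 := by linear_combination -hr
      rw [h2, Valuation.map_neg, map_one] at h1
      exact lt_irrefl _ h1
    rcases lt_trichotomy (w m) (exp (-1 : ℤ)) with h1 | h1 | h1
    · -- small
      have ht : w ((m / D) ^ 2) < 1 := by
        rw [map_pow, map_div₀]
        refine pow_lt_one₀ zero_le ?_ two_ne_zero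
        rw [div_lt_iff₀ (zero_lt_iff.2 hwD), one_mul, hD]
        exact h1
      obtain ⟨r, hr⟩ := hens _ ht
      have hr0 := hne _ r hr ht
      have h2 : (D * r) ^ 2 = m ^ 2 + D ^ 2 := by
        rw [mul_pow, hr]
        field_simp
        ring
      rw [← h2] at hy
      have hDr : D * r ≠ 0 := mul_ne_zero hD0 hr0
      have hy0 : y ≠ 0 := by
        rintro rfl
        rw [zero_pow two_ne_zero] at hy
        exact mul_ne_zero hm (pow_ne_zero 2 hDr) hy.symm
      refine ⟨y / (D * r), div_ne_zero hy0 hDr, Or.inl ?_⟩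
      rw [div_pow, hy]
      field_simp
    · -- the middle
      have hfac : y ^ 2 = m * ((m - i * D) * (m + i * D)) := by
        rw [hy]
        linear_combination (m * D ^ 2) * hi
      have hiD : w (i * D) = exp (-1 : ℤ) := by rw [map_mul, hwi, one_mul, hD]
      have hiD0 : i * D ≠ 0 := mul_ne_zero hi0 hD0
      have c1 : w (m - i * D) ≤ exp (-1 : ℤ) :=
        (Valuation.map_sub _ _ _).trans (max_le h1.le hiD.le)
      have c2 : w (m + i * D) ≤ exp (-1 : ℤ) :=
        (Valuation.map_add _ _ _).trans (max_le h1.le hiD.le)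
      rcases c1.lt_or_eq with c1 | c1
      · have ht : w ((m - i * D) / (i * D)) < 1 := by
          rw [map_div₀, hiD, div_lt_iff₀ (zero_lt_iff.2 exp_ne_zero), one_mul]
          exact c1
        obtain ⟨r, hr⟩ := hens _ ht
        refine ⟨r, hne _ r hr ht, Or.inr ?_⟩
        rw [hr]
        field_simp
        ring
      · rcases c2.lt_or_eq with c2 | c2
        · have ht : w ((m + i * D) / (-(i * D))) < 1 := by
            rw [map_div₀, Valuation.map_neg, hiD, div_lt_iff₀ (zero_lt_iff.2 exp_ne_zero), one_mul]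
            exact c2
          obtain ⟨r, hr⟩ := hens _ ht
          refine ⟨i * r, mul_ne_zero hi0 (hne _ r hr ht), Or.inr ?_⟩
          have e1 : m = -(i * D) * (1 + (m + i * D) / (-(i * D))) := by
            field_simp
            ring
          rw [e1, ← hr, mul_pow, hi]
          ring
        · exfalso
          have e1 := congrArg w hfac
          rw [map_pow, map_mul, map_mul, h1, c1, c2, ← exp_add, ← exp_add] at e1
          have h3 := congrArg WithZero.log e1
          rw [WithZero.log_pow, WithZero.log_exp] at h3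
          have h4 : (2 : ℤ) * WithZero.log (w y) = -3 := by
            rw [nsmul_eq_mul] at h3
            push_cast at h3
            linarith
          omega
    · -- large
      have h1' : 1 ≤ w m := by
        rw [← exp_log hwm] at h1 ⊢
        rw [exp_lt_exp] at h1
        rw [← exp_zero, exp_le_exp]
        omega
      have hlt : w D < 1 := by rw [hD]; exact exp_lt_one' (by norm_num)
      have ht : w ((D / m) ^ 2) < 1 := by
        rw [map_pow, map_div₀]
        refine pow_lt_one₀ zero_le ?_ two_ne_zero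
        rw [div_lt_iff₀ (zero_lt_iff.2 hwm), one_mul]
        exact lt_of_lt_of_le hlt h1'
      obtain ⟨r, hr⟩ := hens _ ht
      have hr0 := hne _ r hr ht
      have h2 : (m * r) ^ 2 = m ^ 2 + D ^ 2 := by
        rw [mul_pow, hr]
        field_simp
      rw [← h2] at hy
      have hmr : m * r ≠ 0 := mul_ne_zero hm hr0
      have hy0 : y ≠ 0 := by
        rintro rfl
        rw [zero_pow two_ne_zero] at hy
        exact mul_ne_zero hm (pow_ne_zero 2 hmr) hy.symm
      refine ⟨y / (m * r), div_ne_zero hy0 hmr, Or.inl ?_⟩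
      rw [div_pow, hy]
      field_simp

/-! ### above two -/

/-- the data of a completion at `1 + i` -/
structure L2 (w : Valuation L ℤᵐ⁰) (i : L) : Prop where
  hi : i ^ 2 = -1
  h2 : w 2 = exp (-2 : ℤ)
  res : ∀ x : L, w x = 1 → w (x - 1) < 1

variable {i : L} (H : L2 w i)
include H

lemma L2.lam : w (1 + i) = exp (-1 : ℤ) := by
  have h1 : (1 + i) ^ 2 = 2 * i := by linear_combination H.hi
  have h2 := congrArg w h1
  rw [map_pow, map_mul, H.h2, w_i H.hi, mul_one] at h2
  have hne : w (1 + i) ≠ 0 := by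
    intro h0
    rw [h0, zero_pow two_ne_zero] at h2
    exact exp_ne_zero h2.symm
  rw [← exp_log hne] at h2 ⊢
  rw [← exp_nsmul, exp_inj, nsmul_eq_mul] at h2
  push_cast at h2
  rw [exp_inj]
  omega

lemma L2.lam_ne : (1 + i : L) ≠ 0 := by
  intro h
  have := H.lam
  rw [h, map_zero] at this
  exact exp_ne_zero this.symm

lemma L2.res' {x : L} (hx : w x = 1) : w (x - 1) ≤ exp (-1 : ℤ) := by
  have h := H.res x hx
  rw [← exp_zero] at h
  have := lt_succ h
  simpa using this

lemma L2.sq {q : L} (hq : w q = 1) : w (q ^ 2 - 1) ≤ exp (-2 : ℤ) := by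
  have h1 := H.res' hq
  have h2 : w (q + 1) ≤ exp (-1 : ℤ) := by
    have e : q + 1 = (q - 1) + 2 := by ring
    rw [e]
    refine (Valuation.map_add _ _ _).trans (max_le h1 ?_)
    rw [H.h2, exp_le_exp]
    norm_num
  have e : q ^ 2 - 1 = (q - 1) * (q + 1) := by ring
  rw [e, map_mul]
  calc w (q - 1) * w (q + 1) ≤ exp (-1 : ℤ) * exp (-1 : ℤ) := mul_le_mul' h1 h2
    _ = exp (-2 : ℤ) := by rw [← exp_add]; norm_num

lemma L2.three : w (3 : L) = 1 := by
  have e3 : (3 : L) = 1 + 2 := by norm_num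
  rw [e3, Valuation.map_add_eq_of_lt_left, map_one]
  rw [map_one, H.h2]
  exact exp_lt_one' (by norm_num)

/-- a unit whose square is near `-i` or `i` -/
lemma L2.no_sq {q : L} (h : w (q ^ 2 + i) ≤ exp (-2 : ℤ) ∨ w (q ^ 2 - i) ≤ exp (-2 : ℤ)) : False := by
  have hlt : (exp (-2 : ℤ) : ℤᵐ⁰) < 1 := exp_lt_one' (by norm_num)
  have hwi := w_i (w := w) H.hi
  have hq2 : w (q ^ 2) = 1 := by
    rcases h with h | h
    · have e : q ^ 2 = -i + (q ^ 2 + i) := by ring
      rw [e, Valuation.map_add_eq_of_lt_left, Valuation.map_neg, hwi]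
      rw [Valuation.map_neg, hwi]
      exact lt_of_le_of_lt h hlt
    · have e : q ^ 2 = i + (q ^ 2 - i) := by ring
      rw [e, Valuation.map_add_eq_of_lt_left, hwi]
      rw [hwi]
      exact lt_of_le_of_lt h hlt
  have hq : w q = 1 := by
    rw [map_pow] at hq2
    rcases lt_trichotomy (w q) 1 with h | h | h
    · exact absurd hq2 (ne_of_lt (pow_lt_one₀ zero_le h two_ne_zero))
    · exact h
    · exact absurd hq2 (ne_of_gt (one_lt_pow₀ h two_ne_zero))
  have h1 := H.sq hq
  have h2 : w (1 + i) ≤ exp (-2 : ℤ) := by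
    rcases h with h | h
    · have e : 1 + i = (q ^ 2 + i) - (q ^ 2 - 1) := by ring
      rw [e]
      exact (Valuation.map_sub _ _ _).trans (max_le h h1)
    · have e : i * (1 + i) = (q ^ 2 - 1) - (q ^ 2 - i) := by linear_combination H.hi
      have e2 : w (i * (1 + i)) ≤ exp (-2 : ℤ) := by
        rw [e]
        exact (Valuation.map_sub _ _ _).trans (max_le h1 h)
      rwa [map_mul, hwi, one_mul] at e2
  rw [H.lam, exp_le_exp] at h2
  norm_num at h2

/-- the case of a change of variables with a factor in the maximal ideal -/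
lemma L2.change {A u r s t : L} (hu : u ≠ 0) (hu1 : w u ≤ exp (-1 : ℤ))
    (hA : w (A - 1) ≤ exp (-5 : ℤ))
    (h1' : w (u⁻¹ * (2 * s)) ≤ 1) (h2' : w (u⁻¹ ^ 2 * (3 * r - s ^ 2)) ≤ 1)
    (h3' : w (u⁻¹ ^ 3 * (2 * t)) ≤ 1) (h4' : w (u⁻¹ ^ 4 * (A + 3 * r ^ 2 - 2 * s * t)) ≤ 1)
    (h6' : w (u⁻¹ ^ 6 * (r * A + r ^ 3 - t ^ 2)) ≤ 1) : False := by
  have hvu : w u ≠ 0 := (Valuation.ne_zero_iff _).2 hu
  have hcl : ∀ (n : ℕ) (x : L), w (u⁻¹ ^ n * x) ≤ 1 → w x ≤ exp (-(n : ℤ)) := by
    intro n x hx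
    rw [map_mul, map_pow, map_inv₀, inv_pow] at hx
    have h5 : w x = w u ^ n * ((w u ^ n)⁻¹ * w x) := by
      rw [← mul_assoc, mul_inv_cancel₀ (pow_ne_zero n hvu), one_mul]
    rw [h5]
    refine (mul_le_of_le_one_right' hx).trans ?_
    calc w u ^ n ≤ (exp (-1 : ℤ)) ^ n := by gcongr
      _ = exp (-(n : ℤ)) := by rw [← exp_nsmul]; congr 1; simp
  have k1 : w (2 * s) ≤ exp (-1 : ℤ) := by
    have := hcl 1 (2 * s) (by rwa [pow_one])
    simpa using this
  have k2 : w (3 * r - s ^ 2) ≤ exp (-2 : ℤ) := hcl 2 _ h2'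
  have k3 : w (2 * t) ≤ exp (-3 : ℤ) := hcl 3 _ h3'
  have k4 : w (A + 3 * r ^ 2 - 2 * s * t) ≤ exp (-4 : ℤ) := hcl 4 _ h4'
  have k6 : w (r * A + r ^ 3 - t ^ 2) ≤ exp (-6 : ℤ) := hcl 6 _ h6'
  have hlt : ∀ n : ℤ, n < 0 → (exp n : ℤᵐ⁰) < 1 := fun n hn => exp_lt_one' hn
  -- `t` and `s`
  have ht : w t ≤ exp (-1 : ℤ) := by
    have h5 : exp (-2 : ℤ) * w t ≤ exp (-3 : ℤ) := by
      rw [← H.h2, ← map_mul]
      exact k3
    have h7 : w t = exp (2 : ℤ) * (exp (-2 : ℤ) * w t) := by
      rw [← mul_assoc, ← exp_add]; norm_num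
    rw [h7]
    calc exp (2 : ℤ) * (exp (-2 : ℤ) * w t) ≤ exp (2 : ℤ) * exp (-3 : ℤ) := by gcongr
      _ = exp (-1 : ℤ) := by rw [← exp_add]; norm_num
  have hst : w (2 * s * t) < 1 := by
    rw [map_mul]
    calc w (2 * s) * w t ≤ exp (-1 : ℤ) * exp (-1 : ℤ) := mul_le_mul' k1 ht
      _ = exp (-2 : ℤ) := by rw [← exp_add]; norm_num
      _ < 1 := hlt _ (by norm_num)
  have h3 := H.three
  have hA1 : w A = 1 := by
    have e : A = 1 + (A - 1) := by ring
    rw [e, Valuation.map_add_eq_of_lt_left, map_one]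
    rw [map_one]
    exact lt_of_le_of_lt hA (hlt _ (by norm_num))
  -- `r` is a unit
  have hr : w r = 1 := by
    rcases lt_trichotomy (w r) 1 with h5 | h5 | h5
    · exfalso
      have h7 : w (A + 3 * r ^ 2 - 2 * s * t) = 1 := by
        have h8 : w (A + 3 * r ^ 2) = 1 := by
          rw [Valuation.map_add_eq_of_lt_left, hA1]
          rw [hA1, map_mul, h3, one_mul, map_pow]
          exact pow_lt_one₀ zero_le h5 two_ne_zero
        rw [Valuation.map_sub_eq_of_lt_left, h8]
        rw [h8]; exact hst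
      rw [h7] at k4
      exact absurd k4 (not_le.2 (hlt _ (by norm_num)))
    · exact h5
    · exfalso
      have h10 : 1 < w r ^ 2 := one_lt_pow₀ h5 two_ne_zero
      have h7 : w (A + 3 * r ^ 2 - 2 * s * t) = w r ^ 2 := by
        have h9 : w (3 * r ^ 2) = w r ^ 2 := by rw [map_mul, h3, one_mul, map_pow]
        have h8 : w (A + 3 * r ^ 2) = w r ^ 2 := by
          rw [Valuation.map_add_eq_of_lt_right, h9]
          rw [hA1, h9]; exact h10
        rw [Valuation.map_sub_eq_of_lt_left, h8]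
        rw [h8]; exact hst.trans h10
      rw [h7] at k4
      exact absurd h10 (not_lt.2 (k4.trans (hlt _ (by norm_num)).le))
  have hs : w s = 1 := by
    have e : s ^ 2 = 3 * r - (3 * r - s ^ 2) := by ring
    have h5 : w (s ^ 2) = 1 := by
      have h6 : w (3 * r) = 1 := by rw [map_mul, h3, hr, one_mul]
      rw [e, Valuation.map_sub_eq_of_lt_left, h6]
      rw [h6]
      exact lt_of_le_of_lt k2 (hlt _ (by norm_num))
    rw [map_pow] at h5
    rcases lt_trichotomy (w s) 1 with h | h | h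
    · exact absurd h5 (ne_of_lt (pow_lt_one₀ zero_le h two_ne_zero))
    · exact h
    · exact absurd h5 (ne_of_gt (one_lt_pow₀ h two_ne_zero))
  have hs2 := H.sq hs
  have hr1 : w (r - 1) ≤ exp (-2 : ℤ) := by
    have e : 3 * (r - 1) = (3 * r - s ^ 2) + ((s ^ 2 - 1) - 2) := by ring
    have h5 : w (3 * (r - 1)) ≤ exp (-2 : ℤ) := by
      rw [e]
      refine (Valuation.map_add _ _ _).trans (max_le k2 ?_)
      exact (Valuation.map_sub _ _ _).trans (max_le hs2 H.h2.le)
    rwa [map_mul, h3, one_mul] at h5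
  -- the equation modulo the fourth power
  have hmul : ∀ (a b : ℤ) (x y : L), w x ≤ exp a → w y ≤ exp b → w (x * y) ≤ exp (a + b) := by
    intro a b x y hx hy
    rw [map_mul, exp_add]
    exact mul_le_mul' hx hy
  have hle : ∀ (a b : ℤ) (x : L), w x ≤ exp a → a ≤ b → w x ≤ exp b := fun a b x hx hab =>
    hx.trans (exp_le_exp.2 hab)
  have hmain : w (t ^ 2 - 2) ≤ exp (-4 : ℤ) := by
    have e : t ^ 2 - 2 = -(r * A + r ^ 3 - t ^ 2) + ((2 * (2 * (r - 1)) + 3 * ((r - 1) * (r - 1))) +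
        ((r - 1) * ((r - 1) * (r - 1)) + (A - 1) * r)) := by ring
    have h1r : w r ≤ exp (0 : ℤ) := by rw [hr, exp_zero]
    have h3' : w (3 : L) ≤ exp (0 : ℤ) := by rw [h3, exp_zero]
    rw [e]
    refine (Valuation.map_add _ _ _).trans (max_le ?_ ((Valuation.map_add _ _ _).trans (max_le
      ((Valuation.map_add _ _ _).trans (max_le ?_ ?_))
      ((Valuation.map_add _ _ _).trans (max_le ?_ ?_)))))
    · rw [Valuation.map_neg]
      exact hle _ _ _ k6 (by norm_num)
    · exact hle _ _ _ (hmul _ _ _ _ H.h2.le (hmul _ _ _ _ H.h2.le hr1)) (by norm_num)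
    · exact hle _ _ _ (hmul _ _ _ _ h3' (hmul _ _ _ _ hr1 hr1)) (by norm_num)
    · exact hle _ _ _ (hmul _ _ _ _ hr1 (hmul _ _ _ _ hr1 hr1)) (by norm_num)
    · exact hle _ _ _ (hmul _ _ _ _ hA h1r) (by norm_num)
  have hl := H.lam
  have hl0 := H.lam_ne
  refine H.no_sq (q := t / (1 + i)) (Or.inl ?_)
  have e : (t / (1 + i)) ^ 2 + i = (t ^ 2 - 2) / (1 + i) ^ 2 := by
    field_simp
    linear_combination (i + 2) * H.hi
  rw [e, map_div₀, map_pow, hl, div_le_iff₀ (zero_lt_iff.2 (pow_ne_zero 2 exp_ne_zero)),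
    ← exp_nsmul, ← exp_add]
  exact hmain.trans (exp_le_exp.2 (by norm_num))

end loc

end Pool.Agent.R428.G
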