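import Mathlib
import Pool.Agent.R428.G.Loc

/-!
# The Tamagawa numbers of `y² = x³ + δ² x`
-/

set_option autoImplicit false
set_option linter.unusedSectionVars false

namespace Pool.Agent.R428.G

open scoped Classical
open WeierstrassCurve WithZero
open Pool.Agent.Y682 (S1 S2)
open Pool.Agent.Y696 (NonsingRed)
open Pool.Agent.Y715.Z (q4 q4_eqn ns_some ns_bad ns_good v_three_le exp_sq)
open Pool.Agent.Y698 (Wr Te dv dv_T dv_ne Mq GP mem_GP GP_index)

section alg

variable {L : Type} [Field L] [CharZero L] {δ i : L}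

omit [CharZero L] in
lemma wr0 (hδ : δ ≠ 0) : Wr (q4 (δ ^ 2)) 0 0 (δ ^ 2) where
  k1 := rfl
  k2 := by show (0 : L) = _; ring
  k3 := rfl
  k4 := by show δ ^ 2 = _; ring
  k6 := by show (0 : L) = _; ring
  hβ := pow_ne_zero 2 hδ

lemma wri (hδ : δ ≠ 0) (hi : i ^ 2 = -1) : Wr (q4 (δ ^ 2)) (i * δ) (3 * i * δ) (-2 * δ ^ 2) where
  k1 := rfl
  k2 := by show (0 : L) = _; ring
  k3 := rfl
  k4 := by show δ ^ 2 = _; linear_combination (3 * δ ^ 2) * hi
  k6 := by
    show (0 : L) = _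
    linear_combination (-2 * i * δ ^ 3) * hi
  hβ := mul_ne_zero (neg_ne_zero.2 two_ne_zero) (pow_ne_zero 2 hδ)

end alg

section loc

variable {L : Type} [Field L] [CharZero L] {w : Valuation L ℤᵐ⁰} {δ i : L}

/-- even order -/
def Ev (w : Valuation L ℤᵐ⁰) (x : L) : Prop := ∃ k : ℤ, w x = exp (2 * k)

omit [CharZero L] in
lemma exp_sq' (m : ℤ) : (exp m : ℤᵐ⁰) ^ 2 = exp (2 * m) := by
  rw [← exp_nsmul]; congr 1

omit [CharZero L] in
lemma mq_ev : Mq (Ev w) where
  mul := by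
    rintro x y ⟨k, hk⟩ ⟨l, hl⟩
    exact ⟨k + l, by rw [map_mul, hk, hl, ← exp_add]; congr 1; ring⟩
  sq := by
    intro x z hz
    obtain ⟨m, hm⟩ := ex_exp (w := w) hz
    constructor
    · rintro ⟨k, hk⟩
      rw [map_mul, map_pow, hm, exp_sq'] at hk
      refine ⟨k - m, ?_⟩
      have h1 : w x = exp (2 * k) / exp (2 * m) := by
        rw [← hk, mul_div_assoc, div_self (exp_ne_zero), mul_one]
      rw [h1, ← exp_sub]
      congr 1
      ring
    · rintro ⟨k, hk⟩
      exact ⟨k + m, by rw [map_mul, map_pow, hk, hm, exp_sq', ← exp_add]; congr 1; ring⟩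

omit [CharZero L] in
lemma ev_dich (x y : L) (hx : x ≠ 0) (hy : y ≠ 0) (h1 : ¬ Ev w x)
    (h2 : ¬ Ev w y) : Ev w (x * y) := by
  obtain ⟨m, hm⟩ := ex_exp (w := w) hx
  obtain ⟨k, hk⟩ := ex_exp (w := w) hy
  have o1 : m % 2 = 1 := by
    by_contra h
    exact h1 ⟨m / 2, by rw [hm, exp_inj]; omega⟩
  have o2 : k % 2 = 1 := by
    by_contra h
    exact h2 ⟨k / 2, by rw [hk, exp_inj]; omega⟩
  exact ⟨(m + k) / 2, by rw [map_mul, hm, hk, ← exp_add, exp_inj]; omega⟩

omit [CharZero L] in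
lemma not_ev {x : L} {k : ℤ} (h : w x = exp (2 * k + 1)) : ¬ Ev w x := by
  rintro ⟨l, hl⟩
  rw [h, exp_inj] at hl
  omega

/-- the index four at a prime dividing `δ` once -/
theorem index_four (h2 : w 2 = 1) (hi : i ^ 2 = -1) (hδ : w δ = exp (-1 : ℤ))
    (H : AddSubgroup (q4 (δ ^ 2)).toAffine.Point)
    (hH : ∀ P, P ∈ H ↔ NonsingRed w (q4 (δ ^ 2)) P) : H.index = 4 := by
  have hδ0 : δ ≠ 0 := by
    rintro rfl
    rw [map_zero] at hδ
    exact exp_ne_zero hδ.symm
  have hwi := w_i (w := w) hi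
  have hi0 := i_ne hi
  have hiδ : w (i * δ) = exp (-1 : ℤ) := by rw [map_mul, hwi, one_mul, hδ]
  have hiδ0 : i * δ ≠ 0 := mul_ne_zero hi0 hδ0
  have hlt : w (δ ^ 2) < 1 := by
    rw [map_pow, hδ, exp_sq']
    exact exp_lt_one' (by norm_num)
  have hoB : ¬ Ev w (i * δ) := not_ev (k := -1) (by rw [hiδ]; rfl)
  have hoB' : ¬ Ev w (0 - i * δ) := by
    rw [zero_sub]
    exact not_ev (k := -1) (by rw [Valuation.map_neg, hiδ]; rfl)
  have hcrit : ∀ {X Y : L}, (q4 (δ ^ 2)).toAffine.Nonsingular X Y →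
      (1 ≤ w X ↔ (Ev w (dv (i * δ) (-2 * δ ^ 2) X) ∧ Ev w (dv 0 (δ ^ 2) X))) := by
    intro X Y h
    have hE := q4_eqn.1 h.1
    by_cases hX : X = 0
    · rw [hX, dv_ne hiδ0.symm, map_zero]
      exact ⟨fun h => absurd h (by simp), fun h => absurd h.1 hoB'⟩
    by_cases hXB : X = i * δ
    · rw [dv_ne hX, hXB, sub_zero, hiδ]
      refine ⟨fun h => ?_, fun h => absurd h.2 hoB⟩
      rw [← exp_zero, exp_le_exp] at h
      omega
    rw [dv_ne hX, dv_ne hXB, sub_zero]
    have hE' : Y ^ 2 = X * ((X - i * δ) * (X + i * δ)) := by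
      rw [hE]
      linear_combination (X * δ ^ 2) * hi
    constructor
    · intro h1
      have hlt : (exp (-1) : ℤᵐ⁰) < w X := by
        refine lt_of_lt_of_le ?_ h1
        rw [← exp_zero, exp_lt_exp]
        norm_num
      have e1 : w (X - i * δ) = w X :=
        Valuation.map_sub_eq_of_lt_left w (by rw [hiδ]; exact hlt)
      have e2 : w (X + i * δ) = w X :=
        Valuation.map_add_eq_of_lt_left w (by rw [hiδ]; exact hlt)
      obtain ⟨m, hm⟩ := ex_exp (w := w) hX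
      have e3 : w (Y ^ 2) = exp (3 * m) := by
        rw [hE', map_mul, map_mul, e1, e2, hm, ← exp_add, ← exp_add]
        congr 1
        ring
      have hY0 : Y ≠ 0 := by
        rintro rfl
        rw [zero_pow two_ne_zero, map_zero] at e3
        exact exp_ne_zero e3.symm
      obtain ⟨l, hl⟩ := ex_exp (w := w) hY0
      rw [map_pow, hl, exp_sq', exp_inj] at e3
      have : Ev w X := ⟨m / 2, by rw [hm, exp_inj]; omega⟩
      refine ⟨?_, this⟩
      obtain ⟨k, hk⟩ := this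
      exact ⟨k, by rw [e1, hk]⟩
    · rintro ⟨⟨k, hk⟩, ⟨l, hl⟩⟩
      by_contra hlt
      push Not at hlt
      rw [hl, ← exp_zero, exp_lt_exp] at hlt
      have e2 : w (X - i * δ) = exp (-1) := by
        rw [Valuation.map_sub_eq_of_lt_right w, hiδ]
        rw [hiδ, hl, exp_lt_exp]
        omega
      rw [e2, exp_inj] at hk
      omega
  set S0 := wr0 hδ0 with hS0
  set Si := wri hδ0 hi with hSi
  set H1 := GP S0 (mq_ev (w := w)) with hH1
  set H2 := GP Si (mq_ev (w := w)) with hH2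
  have hidx1 : H1.index = 2 := by
    refine GP_index S0 (mq_ev (w := w)) ev_dich (Q := Te Si) ?_
    unfold Te
    rw [mem_GP, dv_ne hiδ0, sub_zero]
    exact hoB
  have hidx2 : H2.relIndex H1 = 2 := by
    show (H2.addSubgroupOf H1).index = 2
    rw [AddSubgroup.index_eq_two_iff]
    have hT1 : Te S0 ∈ H1 := by
      unfold Te
      rw [hH1, mem_GP, dv_T]
      exact ⟨-1, by rw [map_pow, hδ, exp_sq']⟩
    have hT2 : Te S0 ∉ H2 := by
      unfold Te
      rw [hH2, mem_GP, dv_ne hiδ0.symm]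
      exact hoB'
    refine ⟨⟨Te S0, hT1⟩, fun P => ?_⟩
    rw [AddSubgroup.mem_addSubgroupOf, AddSubgroup.mem_addSubgroupOf]
    show Xor ((P : (q4 (δ ^ 2)).toAffine.Point) + Te S0 ∈ H2) ((P : (q4 (δ ^ 2)).toAffine.Point) ∈ H2)
    by_cases hP : (P : (q4 (δ ^ 2)).toAffine.Point) ∈ H2
    · refine Or.inr ⟨hP, fun h3 => hT2 ?_⟩
      have := H2.sub_mem h3 hP
      rwa [add_sub_cancel_left] at this
    · refine Or.inl ⟨?_, hP⟩
      have hGI : H2.index = 2 := GP_index Si (mq_ev (w := w)) ev_dich hT2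
      exact (AddSubgroup.add_mem_iff_of_index_two hGI).2 ⟨fun h => absurd h hP, fun h => absurd h hT2⟩
  have hidx : (H2 ⊓ H1).index = 4 := by
    have h3 := AddSubgroup.relIndex_mul_index (H := H2 ⊓ H1) (K := H1) inf_le_right
    rw [AddSubgroup.inf_relIndex_right, hidx2, hidx1] at h3
    omega
  have hHe : H = H2 ⊓ H1 := by
    apply SetLike.ext
    intro P
    rcases P with _ | ⟨X, Y, h⟩
    · exact ⟨fun _ => (H2 ⊓ H1).zero_mem, fun _ => H.zero_mem⟩
    · rw [hH, ns_bad h2 hlt, AddSubgroup.mem_inf, hH1, hH2, mem_GP, mem_GP]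
      exact hcrit h
  rw [hHe, hidx]

variable (H2' : L2 w i)
include H2'

omit [CharZero L] in
lemma L2.iδ (hδ : w (δ - 1) ≤ exp (-3 : ℤ)) : w δ = 1 ∧ w (i * δ) = 1 ∧ w (i * δ - 1) < 1 := by
  have h1 : w δ = 1 := by
    have e : δ = 1 + (δ - 1) := by ring
    rw [e, Valuation.map_add_eq_of_lt_left, map_one]
    rw [map_one]
    exact lt_of_le_of_lt hδ (exp_lt_one' (by norm_num))
  have h2 : w (i * δ) = 1 := by rw [map_mul, w_i H2'.hi, h1, one_mul]
  exact ⟨h1, h2, H2'.res _ h2⟩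

omit [CharZero L] in
lemma L2.A (hδ : w (δ - 1) ≤ exp (-3 : ℤ)) : w (δ ^ 2 - 1) ≤ exp (-5 : ℤ) := by
  have h1 : w (δ + 1) ≤ exp (-2 : ℤ) := by
    have e : δ + 1 = (δ - 1) + 2 := by ring
    rw [e]
    refine (Valuation.map_add _ _ _).trans (max_le (hδ.trans (exp_le_exp.2 (by norm_num))) ?_)
    rw [H2'.h2]
  have e : δ ^ 2 - 1 = (δ - 1) * (δ + 1) := by ring
  rw [e, map_mul]
  calc w (δ - 1) * w (δ + 1) ≤ exp (-3 : ℤ) * exp (-2 : ℤ) := mul_le_mul' hδ h1
    _ = exp (-5 : ℤ) := by rw [← exp_add]; norm_num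

omit [CharZero L] in
/-- the abscissa is not near `i δ` to order one -/
lemma L2.no_one (hδ : w (δ - 1) ≤ exp (-3 : ℤ)) {x y : L} (hx : w (x - i * δ) = exp (-1 : ℤ))
    (h : y ^ 2 = x ^ 3 + δ ^ 2 * x) : False := by
  obtain ⟨hδ1, -, -⟩ := H2'.iδ hδ
  have hl := H2'.lam
  have hl0 := H2'.lam_ne
  have hwi := w_i (w := w) H2'.hi
  set l : L := 1 + i with hldef
  have hll : l ^ 2 = 2 * i := by rw [hldef]; linear_combination H2'.hi
  set c : L := (x - i * δ) / l with hc
  have hc1 : w c = 1 := by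
    rw [hc, map_div₀, hx, hl, div_self exp_ne_zero]
  have hxc : x = i * δ + l * c := by rw [hc]; field_simp; ring
  refine H2'.no_sq (q := y / l) (Or.inr ?_)
  have hq : (y / l) ^ 2 = (i * δ + l * c) * (c ^ 2 + l * c * δ) := by
    rw [div_pow, h, hxc]
    have e2 : l * (c + l * δ) = l * c + 2 * i * δ := by linear_combination δ * hll
    have e1 : (i * δ + l * c) ^ 3 + δ ^ 2 * (i * δ + l * c) =
        l ^ 2 * ((i * δ + l * c) * (c ^ 2 + l * c * δ)) := by
      have e3 : (i * δ + l * c) ^ 3 + δ ^ 2 * (i * δ + l * c) =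
          (i * δ + l * c) * ((l * c) * (l * c + 2 * i * δ)) := by
        linear_combination (δ ^ 2 * (i * δ + l * c)) * H2'.hi
      rw [e3, ← e2]
      ring
    rw [e1]
    field_simp
  have hsq := H2'.sq hc1
  have hc' := H2'.res' hc1
  have hmul : ∀ (a b : ℤ) (x y : L), w x ≤ exp a → w y ≤ exp b → w (x * y) ≤ exp (a + b) := by
    intro a b x y hx hy
    rw [map_mul, exp_add]
    exact mul_le_mul' hx hy
  have hle : ∀ (a b : ℤ) (x : L), w x ≤ exp a → a ≤ b → w x ≤ exp b := fun a b x hx hab =>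
    hx.trans (exp_le_exp.2 hab)
  have u1 : ∀ x : L, w x = 1 → w x ≤ exp (0 : ℤ) := fun x hx => by rw [hx, exp_zero]
  have ui := u1 _ hwi
  have uc := u1 _ hc1
  have uδ := u1 _ hδ1
  have hδ' : w (δ - 1) ≤ exp (-2 : ℤ) := hle _ _ _ hδ (by norm_num)
  have e : (y / l) ^ 2 - i = (i * (δ * (c * c)) * (0 : L)) + ((i * (δ * (c ^ 2 - 1)) + i * (δ - 1)) +
      (l * (i * (c * (δ ^ 2 - 1)) + (i * (c - 1))) + (l * ((c ^ 2 - 1) * c + (c - 1)) +
      (l * l + (l * l) * (c * (c * δ)))))) := by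
    rw [hq]
    have : l = 1 + i := hldef
    rw [this]
    ring
  rw [e, mul_zero, zero_add]
  have hA : w (δ ^ 2 - 1) ≤ exp (-1 : ℤ) := hle _ _ _ (H2'.A hδ) (by norm_num)
  have hsum : ∀ (x y : L) (n : ℤ), w x ≤ exp n → w y ≤ exp n → w (x + y) ≤ exp n :=
    fun x y n hx hy => (Valuation.map_add _ _ _).trans (max_le hx hy)
  refine hsum _ _ _ (hsum _ _ _ ?_ ?_) (hsum _ _ _ ?_ (hsum _ _ _ ?_ (hsum _ _ _ ?_ ?_)))
  · exact hle _ _ _ (hmul _ _ _ _ ui (hmul _ _ _ _ uδ hsq)) (by norm_num)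
  · exact hle _ _ _ (hmul _ _ _ _ ui hδ') (by norm_num)
  · refine hle _ _ _ (hmul _ (-1) _ _ hl.le (hsum _ _ _ ?_ ?_)) (by norm_num)
    · exact hle _ _ _ (hmul _ _ _ _ ui (hmul _ _ _ _ uc hA)) (by norm_num)
    · exact hle _ _ _ (hmul _ _ _ _ ui hc') (by norm_num)
  · refine hle _ _ _ (hmul _ (-1) _ _ hl.le (hsum _ _ _ ?_ ?_)) (by norm_num)
    · exact hle _ _ _ (hmul _ _ _ _ hsq uc) (by norm_num)
    · exact hc'
  · exact hle _ _ _ (hmul _ _ _ _ hl.le hl.le) (by norm_num)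
  · exact hle _ _ _ (hmul _ _ _ _ (hmul _ _ _ _ hl.le hl.le) (hmul _ _ _ _ uc
      (hmul _ _ _ _ uc uδ))) (by norm_num)

omit [CharZero L] in
/-- the points with nonsingular reduction -/
lemma L2.ns (hδ : w (δ - 1) ≤ exp (-3 : ℤ)) {x y : L} (h : (q4 (δ ^ 2)).toAffine.Nonsingular x y) :
    NonsingRed w (q4 (δ ^ 2)) (.some x y h) ↔ w x ≠ 1 := by
  rw [ns_some]
  obtain ⟨hδ1, -, -⟩ := H2'.iδ hδ
  have hD : w (δ ^ 2) = 1 := by rw [map_pow, hδ1, one_pow]
  have he := q4_eqn.1 h.1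
  have h3 := H2'.three
  rcases lt_trichotomy (w x) 1 with h1 | h1 | h1
  · refine ⟨fun _ => h1.ne, fun _ => Or.inr ?_⟩
    rw [Valuation.map_add_eq_of_lt_right, hD]
    rw [hD, map_mul, h3, one_mul, map_pow]
    exact pow_lt_one₀ zero_le h1 two_ne_zero
  · refine ⟨fun h4 => ?_, fun h4 => absurd h1 h4⟩
    exfalso
    have h2lt : w (2 : L) < 1 := by rw [H2'.h2]; exact exp_lt_one' (by norm_num)
    rcases h4 with h4 | h4
    · have hy : w y ≤ 1 := by
        have h5 : w (y ^ 2) ≤ 1 := by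
          rw [he]
          refine (Valuation.map_add _ _ _).trans (max_le ?_ ?_)
          · rw [map_pow, h1, one_pow]
          · rw [map_mul, hD, h1, one_mul]
        by_contra hy
        rw [not_le] at hy
        rw [map_pow] at h5
        exact absurd h5 (not_le.2 (one_lt_pow₀ hy two_ne_zero))
      rw [map_mul] at h4
      exact absurd h4 (not_le.2 (mul_lt_one_of_lt_of_le h2lt hy))
    · have e : 3 * x ^ 2 + δ ^ 2 = 3 * (x ^ 2 - 1) + ((δ ^ 2 - 1) + 2 * 2) := by ring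
      have h5 : w (3 * x ^ 2 + δ ^ 2) < 1 := by
        rw [e]
        refine lt_of_le_of_lt (Valuation.map_add _ _ _) (max_lt ?_ (lt_of_le_of_lt
          (Valuation.map_add _ _ _) (max_lt ?_ ?_)))
        · rw [map_mul, h3, one_mul]
          exact lt_of_le_of_lt (H2'.sq h1) (exp_lt_one' (by norm_num))
        · exact lt_of_le_of_lt (H2'.A hδ) (exp_lt_one' (by norm_num))
        · rw [map_mul]
          exact mul_lt_one_of_lt_of_le h2lt h2lt.le
      exact absurd h4 (not_le.2 h5)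
  · refine ⟨fun _ => h1.ne', fun _ => Or.inr ?_⟩
    rw [Valuation.map_add_eq_of_lt_left, map_mul, h3, one_mul, map_pow]
    · exact one_le_pow₀ h1.le
    · rw [hD, map_mul, h3, one_mul, map_pow]
      exact one_lt_pow₀ h1 two_ne_zero

/-- the index two at `1 + i` -/
theorem L2.index_two (hδ : w (δ - 1) ≤ exp (-3 : ℤ))
    (H : AddSubgroup (q4 (δ ^ 2)).toAffine.Point)
    (hH : ∀ P, P ∈ H ↔ NonsingRed w (q4 (δ ^ 2)) P) : H.index = 2 := by
  obtain ⟨hδ1, hiδ, hiδ1⟩ := H2'.iδ hδ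
  have hδ0 : δ ≠ 0 := by
    rintro rfl
    rw [map_zero] at hδ1
    exact zero_ne_one hδ1
  set Si := wri hδ0 H2'.hi with hSi
  have hTH : Te Si ∉ H := by
    unfold Te
    rw [hH, H2'.ns hδ]
    exact fun h => h hiδ
  rw [AddSubgroup.index_eq_two_iff]
  refine ⟨Te Si, fun P => ?_⟩
  rcases P with _ | ⟨x, y, h⟩
  · right
    refine ⟨H.zero_mem, ?_⟩
    have e : (Affine.Point.zero : (q4 (δ ^ 2)).toAffine.Point) + Te Si = Te Si := zero_add _
    rw [e]
    exact hTH
  · by_cases hx : x = i * δ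
    · left
      rw [Si.eq_T hx h]
      refine ⟨?_, hTH⟩
      rw [Si.T_add_T]
      exact H.zero_mem
    · obtain ⟨Y', h', hadd⟩ := Si.add_T hx h
      have hne : x - i * δ ≠ 0 := sub_ne_zero.2 hx
      have hvne : w (x - i * δ) ≠ 0 := (Valuation.ne_zero_iff _).2 hne
      have hβ : w (-2 * δ ^ 2) = exp (-2 : ℤ) := by
        rw [map_mul, Valuation.map_neg, H2'.h2, map_pow, hδ1, one_pow, mul_one]
      by_cases h1 : w x = 1
      · left
        refine ⟨?_, fun h3 => ((H2'.ns hδ h).1 ((hH _).1 h3)) h1⟩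
        rw [hadd, hH, H2'.ns hδ]
        have hle : w (x - i * δ) < 1 := by
          have e : x - i * δ = (x - 1) - (i * δ - 1) := by ring
          rw [e]
          exact lt_of_le_of_lt (Valuation.map_sub _ _ _) (max_lt (H2'.res x h1) hiδ1)
        obtain ⟨n, hn⟩ := ex_exp (w := w) hne
        have hn0 : n < 0 := by rwa [hn, ← exp_zero, exp_lt_exp] at hle
        have hn1 : n ≠ -1 := by
          rintro rfl
          exact H2'.no_one hδ hn (q4_eqn.1 h.1)
        have hq : w (-2 * δ ^ 2 / (x - i * δ)) = exp (-2 - n) := by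
          rw [map_div₀, hβ, hn, ← exp_sub]
        rcases eq_or_ne n (-2) with h2 | h2
        · intro h5
          rw [h2] at hq
          have hq1 : w (-2 * δ ^ 2 / (x - i * δ)) = 1 := by rw [hq, ← exp_zero]; norm_num
          have h6 := H2'.res _ hq1
          have e : i * δ + -2 * δ ^ 2 / (x - i * δ) =
              (i * δ - 1) + ((-2 * δ ^ 2 / (x - i * δ) - 1) + 2) := by ring
          have h7 : w (i * δ + -2 * δ ^ 2 / (x - i * δ)) < 1 := by
            rw [e]
            refine lt_of_le_of_lt (Valuation.map_add _ _ _) (max_lt hiδ1 (lt_of_le_of_lt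
              (Valuation.map_add _ _ _) (max_lt h6 ?_)))
            rw [H2'.h2]; exact exp_lt_one' (by norm_num)
          rw [h5] at h7
          exact lt_irrefl _ h7
        · have h3 : 1 < w (-2 * δ ^ 2 / (x - i * δ)) := by
            rw [hq, ← exp_zero, exp_lt_exp]
            omega
          rw [Valuation.map_add_eq_of_lt_right]
          · exact h3.ne'
          · rw [hiδ]; exact h3
      · right
        refine ⟨(hH _).2 ((H2'.ns hδ h).2 h1), ?_⟩
        rw [hadd, hH, H2'.ns hδ, not_ne_iff]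
        have hge : 1 ≤ w (x - i * δ) := by
          rcases lt_or_gt_of_ne h1 with h2 | h2
          · rw [Valuation.map_sub_eq_of_lt_right, hiδ]
            rw [hiδ]; exact h2
          · rw [Valuation.map_sub_eq_of_lt_left]
            · exact h2.le
            · rw [hiδ]; exact h2
        rw [Valuation.map_add_eq_of_lt_left, hiδ]
        rw [hiδ, map_div₀, hβ, div_lt_one₀ (zero_lt_iff.2 hvne)]
        exact lt_of_lt_of_le (exp_lt_one' (by norm_num)) hge

end loc

end Pool.Agent.R428.G
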