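import Mathlib
import Pool.Agent.R428.G.Tm
import Pool.Agent.Y697.MQ.Sel3
import Pool.Agent.Y697.MQ.Cnt
import Pool.Agent.Y697.PP.Det
import Pool.Agent.Y715.Z.Sel

/-!
# The 2-torsion of Sha of `y² = x³ + D² x` over `ℚ(i)`
-/

set_option autoImplicit false
set_option linter.unusedSectionVars false

open NumberField IsDedekindDomain

namespace Pool.Agent.R428.G

open WithZero
open Pool.Agent.Y682 (S1 S2 vv vv_coe IsT Zc Zc_card Zc_lower LL1 LL2 Sq quot_eq)
open Pool.Agent.Y699 (PP qr pi1 pi1_prime plc pg pg_span pg_prime plc_pg)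
open Pool.Agent.Y715.Z (em0 em0_ne em0_inj em0_apply plc_mem val_lt val_le val_one val_z val_sqf ph
  not_dvd_of_loc qr_of_sqrt hens_odd exp_sq exists_sqf im1_sq S2_S1)
open H385 (ZI RQ im1 nrm)
open Pool.Agent.Y697.MQ (OP leg ci gA gθ leg_mul leg_I leg_ne ci_ne T_cases leg_eq_zero leg_congr
  prim_iff_Pr)

lemma toPP {p : GaussianInt} (hp : OP p) : PP p := ⟨hp.pr, (prim_iff_Pr p).2 hp.pm⟩

lemma sgn3 {a b c : ℤ} (ha : a = 1 ∨ a = -1) (hb : b = 1 ∨ b = -1) (hc : c = 1 ∨ c = -1)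
    (h : a * (c * b) = 1) : b = c * a := by
  rcases ha with rfl | rfl <;> rcases hb with rfl | rfl <;> rcases hc with rfl | rfl <;> omega

lemma sgn2 {a b : ℤ} (ha : a = 1 ∨ a = -1) (hb : b = 1 ∨ b = -1) (h : b * a = 1) : a = b := by
  rcases ha with rfl | rfl <;> rcases hb with rfl | rfl <;> omega

lemma leg_qr (p a : GaussianInt) : leg p a = qr p a := by
  unfold leg qr
  congr 2
  apply propext
  refine exists_congr fun b => ?_
  rw [← dvd_neg, neg_sub]

section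

variable {K : Type} [Field K] [NumberField K] (e : ZI ≃+* 𝓞 K)

lemma leg_of_sqrt {z : ZI} (hz : Prime z) (hP : OP z) {a : ZI} (ha : ¬ z ∣ a)
    {x : (plc e hz).adicCompletion K} (hx : x ^ 2 = ph e hz (em0 e a)) : leg z a = 1 := by
  rw [leg_qr]
  exact qr_of_sqrt e hz (toPP hP) ha hx

/-- the local condition at a prime dividing `D` -/
lemma loc_bad2 {z : ZI} (hz : Prime z) (hP : OP z) {D d : ZI} (hDsq : Squarefree D)
    (hzD : z ∣ D) {b w : K} (hw : w ≠ 0) (hb : b = em0 e d * w ^ 2)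
    (h : ∃ y m : (plc e hz).adicCompletion K, y ≠ 0 ∧ ph e hz b * y ^ 2 = m ∧
      S1 0 (ph e hz (em0 e (D ^ 2))) m) :
    (¬ z ∣ d → leg z d = 1) ∧ (Squarefree d → z ∣ d → ∀ E u D' : ZI, d = E * u → D = E * D' →
      ¬ z ∣ u → ¬ z ∣ D' → leg z (u * (im1 * D')) = 1) := by
  obtain ⟨y, m, hy, hym, hm⟩ := h
  have hD0 : D ≠ 0 := hDsq.ne_zero
  have h2' : (plc e hz).valuation K 2 = 1 := by
    have := val_one e hz hP.two
    rwa [map_ofNat] at this
  have hwD : vv (plc e hz) (ph e hz (em0 e D)) = WithZero.exp (-1 : ℤ) := by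
    rw [vv_coe, val_sqf e hz hDsq hzD]
  have hphD : ph e hz (em0 e D) ≠ 0 := (map_ne_zero _).2 (em0_ne e hD0)
  have hI : (ph e hz (em0 e im1)) ^ 2 = -1 := by
    rw [← map_pow, im1_sq, map_neg, map_one]
  rw [map_pow, map_pow] at hm
  obtain ⟨c, hc, hmc⟩ := cls2 (fun t ht => hens_odd (plc e hz) h2' t ht) hI hwD hm
  have hpw : ph e hz w ≠ 0 := (map_ne_zero _).2 hw
  have hvy : vv (plc e hz) y ≠ 0 := (Valuation.ne_zero_iff _).2 hy
  have hvc : vv (plc e hz) c ≠ 0 := (Valuation.ne_zero_iff _).2 hc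
  have hvw : vv (plc e hz) (ph e hz w) ≠ 0 := (Valuation.ne_zero_iff _).2 hpw
  have hwi := w_i (w := vv (plc e hz)) hI
  have hm2 : ph e hz (em0 e d) * (ph e hz w * y) ^ 2 = m := by
    rw [← hym, hb, map_mul, map_pow]; ring
  constructor
  · intro hzd
    rcases hmc with h1 | h1
    · apply leg_of_sqrt e hz hP hzd (x := c / (ph e hz w * y))
      rw [div_pow, ← h1, ← hm2]
      field_simp
    · exfalso
      have h3 := congrArg (vv (plc e hz)) (hm2.trans h1)
      rw [map_mul, map_mul, map_mul, vv_coe, val_one e hz hzd, one_mul, map_pow, map_pow, map_mul,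
        hwD, hwi, one_mul] at h3
      apply exp_sq (g := vv (plc e hz) (ph e hz w) * vv (plc e hz) y / vv (plc e hz) c)
      rw [div_pow, h3]
      field_simp
  · intro hd hzd E u D' hE hDE hzu hzD'
    have hI' : ¬ z ∣ im1 := fun h => hz.not_isUnit (isUnit_of_dvd_unit h
      (IsUnit.of_mul_eq_one (⟨0, -1⟩ : ZI) (by decide)))
    rcases hmc with h1 | h1
    · exfalso
      have h3 := congrArg (vv (plc e hz)) (hm2.trans h1)
      rw [map_mul, vv_coe, val_sqf e hz hd hzd, map_pow, map_pow, map_mul] at h3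
      apply exp_sq (g := vv (plc e hz) c / (vv (plc e hz) (ph e hz w) * vv (plc e hz) y))
      rw [div_pow, ← h3]
      field_simp
    · have hE0 : E ≠ 0 := by
        rintro rfl
        exact hD0 (by rw [hDE, zero_mul])
      have hpE : ph e hz (em0 e E) ≠ 0 := (map_ne_zero _).2 (em0_ne e hE0)
      have h5 : ph e hz (em0 e u) * (ph e hz w * y) ^ 2 =
          ph e hz (em0 e im1) * ph e hz (em0 e D') * c ^ 2 := by
        apply mul_left_cancel₀ hpE
        have h6 := hm2.trans h1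
        rw [hE, hDE] at h6
        simp only [map_mul] at h6
        linear_combination h6
      apply leg_of_sqrt e hz hP (a := u * (im1 * D'))
        (x := ph e hz (em0 e im1) * ph e hz (em0 e D') * c / (ph e hz w * y))
      · intro h6
        rcases hz.dvd_or_dvd h6 with h7 | h7
        · exact hzu h7
        · rcases hz.dvd_or_dvd h7 with h8 | h8
          · exact hI' h8
          · exact hzD' h8
      · simp only [map_mul]
        rw [div_pow, mul_pow, div_eq_iff (pow_ne_zero 2 (mul_ne_zero hpw hy))]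
        linear_combination (-(ph e hz (em0 e im1) * ph e hz (em0 e D'))) * h5

/-- **the Selmer group** -/
theorem sel2 {S : Finset GaussianInt} (hS : ∀ l ∈ S, OP l)
    (hker : ∀ t : GaussianInt → ZMod 2, (∀ v ∈ S, gθ v * t v + ∑ u ∈ S, gA v u * (t v + t u) = 0) →
      ∀ v ∈ S, t v = 0) {b : K} (hb : b ≠ 0)
    (h : ∀ v : HeightOneSpectrum (𝓞 K), ∃ y m : v.adicCompletion K, y ≠ 0 ∧
      algebraMap K (v.adicCompletion K) b * y ^ 2 = m ∧
        S1 0 (algebraMap K (v.adicCompletion K) (em0 e ((∏ l ∈ S, l) ^ 2))) m) :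
    ∃ c : K, b = c ^ 2 ∨ b = em0 e (im1 * ∏ l ∈ S, l) * c ^ 2 := by
  classical
  obtain ⟨d, w, hd, hw, hbd⟩ := exists_sqf e hb
  have hDsq : Squarefree (∏ l ∈ S, l) := by
    refine Finset.squarefree_prod_of_pairwise_isCoprime (fun a ha b hb hab => ?_)
      fun x hx => (hS x hx).pr.squarefree
    exact (((hS a ha).pr.irreducible.coprime_iff_not_dvd).2 fun h1 =>
      hab ((hS a ha).dvd (hS b hb) h1)).isRelPrime
  -- the primes of `d`
  have hprime : ∀ ρ : ZI, Prime ρ → ρ ∣ d → ρ ∣ ∏ l ∈ S, l := by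
    intro ρ hρ hρd
    by_contra hρD
    exact not_dvd_of_loc e hρ (fun h' => hρD (hρ.dvd_of_dvd_pow h')) hd hw hbd (h (plc e hρ)) hρd
  set T := S.filter (fun l => l ∣ d) with hT
  have hTS : T ⊆ S := Finset.filter_subset _ _
  have hcop : ∀ a ∈ S, ∀ b ∈ S, a ≠ b → IsCoprime a b := fun a ha b hb hab =>
    ((hS a ha).pr.irreducible.coprime_iff_not_dvd).2 fun h1 => hab ((hS a ha).dvd (hS b hb) h1)
  have hTd : (∏ l ∈ T, l) ∣ d := by
    refine Finset.prod_dvd_of_coprime ?_ ?_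
    · intro i hi j hj hij
      exact hcop i (hTS hi) j (hTS hj) hij
    · intro i hi
      exact (Finset.mem_filter.1 hi).2
  obtain ⟨u, hu⟩ := hTd
  have huu : IsUnit u := by
    by_contra hnu
    have hu0 : u ≠ 0 := by
      rintro rfl
      exact hd.ne_zero (by rw [hu, mul_zero])
    obtain ⟨ρ, hρ, hρu⟩ := WfDvdMonoid.exists_irreducible_factor hnu hu0
    have hρ' : Prime ρ := irreducible_iff_prime.1 hρ
    have h1 : ρ ∣ d := by rw [hu]; exact hρu.mul_left _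
    have h2 := hprime ρ hρ' h1
    obtain ⟨l, hl, hρl⟩ := (hρ'.dvd_finsetProd_iff _).1 h2
    have h3 : l ∣ ρ := by
      obtain ⟨c, hc⟩ := hρl
      rcases (hS l hl).pr.irreducible.isUnit_or_isUnit hc with h4 | h4
      · exact absurd h4 hρ'.not_isUnit
      · obtain ⟨c', hc'⟩ := h4.exists_right_inv
        exact ⟨c', by rw [hc, mul_assoc, hc', mul_one]⟩
    have h4 : l ∈ T := Finset.mem_filter.2 ⟨hl, h3.trans h1⟩
    have h5 : l * l ∣ d := by
      rw [hu]
      exact mul_dvd_mul (Finset.dvd_prod_of_mem _ h4) (h3.trans hρu)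
    exact (hS l hl).pr.not_isUnit (hd _ h5)
  have hnu : ∀ p : ZI, Prime p → ¬ p ∣ u := fun p hp h' => hp.not_isUnit (isUnit_of_dvd_unit h' huu)
  have hmem : ∀ (U : Finset ZI), U ⊆ S → ∀ p ∈ S, p ∣ ∏ l ∈ U, l → p ∈ U := by
    intro U hU p hp h'
    obtain ⟨l, hl, hpl⟩ := ((hS p hp).pr.dvd_finsetProd_iff _).1 h'
    rw [(hS p hp).dvd (hS l (hU hl)) hpl]
    exact hl
  have hcases := T_cases hS hTS huu hker ?_ ?_
  · rcases hcases with ⟨hu1, hT1⟩ | ⟨hu1, hT1⟩
    · rw [hT1, Finset.prod_empty, one_mul] at hu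
      have hu2 : u = 1 ∨ u = -1 := sq_eq_sq_iff_eq_or_eq_neg.1 (hu1.trans (one_pow 2).symm)
      rcases hu2 with h2 | h2
      · exact ⟨w, Or.inl (by rw [hbd, hu, h2, map_one, one_mul])⟩
      · refine ⟨em0 e im1 * w, Or.inl ?_⟩
        rw [hbd, hu, h2, mul_pow, im1_sq, map_neg, map_one]
    · rw [hT1] at hu
      have hu2 : u = im1 ∨ u = -im1 := by
        apply sq_eq_sq_iff_eq_or_eq_neg.1
        rw [hu1]; decide
      rcases hu2 with h2 | h2
      · exact ⟨w, Or.inr (by rw [hbd, hu, h2, mul_comm im1])⟩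
      · refine ⟨em0 e im1 * w, Or.inr ?_⟩
        rw [hbd, hu, h2, mul_pow, im1_sq, map_mul, map_mul, map_neg]
        ring
  · intro p hp D' hD'
    have hpS := hTS hp
    have hzD : p ∣ ∏ l ∈ S, l := Finset.dvd_prod_of_mem _ hpS
    have hpD' : ¬ p ∣ D' := by
      rintro ⟨c, hc⟩
      have h5 : p * p ∣ ∏ l ∈ S, l := by
        rw [hD', hc]
        exact mul_dvd_mul (Finset.dvd_prod_of_mem _ hp) ⟨c, rfl⟩
      exact (hS p hpS).pr.not_isUnit (hDsq _ h5)
    have h6 := (loc_bad2 e (hS p hpS).pr (hS p hpS) hDsq hzD hw hbd (h (plc e (hS p hpS).pr))).2 hd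
      (Finset.mem_filter.1 hp).2 _ u D' hu hD' (hnu p (hS p hpS).pr) hpD'
    have hI : leg p im1 = ci p := leg_I (hS p hpS)
    rw [leg_mul (hS p hpS).pr, leg_mul (hS p hpS).pr, hI] at h6
    exact sgn3 (leg_ne (hnu p (hS p hpS).pr)) (leg_ne hpD') (ci_ne (hS p hpS).pm) h6
  · intro p hp hpT
    have hpd : ¬ p ∣ d := fun h' => hpT (Finset.mem_filter.2 ⟨hp, h'⟩)
    have hzD : p ∣ ∏ l ∈ S, l := Finset.dvd_prod_of_mem _ hp
    have h6 := (loc_bad2 e (hS p hp).pr (hS p hp) hDsq hzD hw hbd (h (plc e (hS p hp).pr))).1 hpd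
    have hpT' : ¬ p ∣ ∏ l ∈ T, l := fun h' => hpT (hmem T hTS p hp h')
    rw [hu, leg_mul (hS p hp).pr] at h6
    exact sgn2 (leg_ne (hnu p (hS p hp).pr)) (leg_ne hpT') h6

/-- there is at most one element of Sha killed by two, and the rank is zero -/
theorem sha_rank {S : Finset GaussianInt} (hS : ∀ l ∈ S, OP l)
    (hker : ∀ t : GaussianInt → ZMod 2, (∀ v ∈ S, gθ v * t v + ∑ u ∈ S, gA v u * (t v + t u) = 0) →
      ∀ v ∈ S, t v = 0) {W : WeierstrassCurve K} (hT : IsT W 0 (em0 e ((∏ l ∈ S, l) ^ 2))) :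
    Module.finrank ℤ (Pool.Agent.Y682.MP W) = 0 ∧
      ∀ x : Pool.Agent.TH841.NF.D.Sha W, 2 • x = 0 → x = 0 := by
  classical
  have hD0 : em0 e (im1 * ∏ l ∈ S, l) ≠ 0 := em0_ne e (mul_ne_zero (by decide)
    (Finset.prod_ne_zero_iff.2 fun l hl => (hS l hl).pr.ne_zero))
  let U : Set (Kˣ ⧸ Sq K) := {(1 : Kˣ ⧸ Sq K),
    ((Units.mk0 (em0 e (im1 * ∏ l ∈ S, l)) hD0 : Kˣ) : Kˣ ⧸ Sq K)}
  have hUf : U.Finite := Set.toFinite U
  have hfin : Finite U := hUf.to_subtype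
  have hU2 : Nat.card U ≤ 2 := by
    have h1 : U.ncard ≤ 2 := by
      refine (Set.ncard_insert_le _ _).trans ?_
      rw [Set.ncard_singleton]
    exact h1
  have key : ∀ b : Kˣ, (∃ c : K, (b : K) = c ^ 2 ∨ (b : K) = em0 e (im1 * ∏ l ∈ S, l) * c ^ 2) →
      (b : Kˣ ⧸ Sq K) ∈ U := by
    rintro b ⟨c, hc⟩
    have hc0 : c ≠ 0 := by
      rintro rfl
      rcases hc with hc | hc
      · rw [zero_pow two_ne_zero] at hc; exact b.ne_zero hc
      · rw [zero_pow two_ne_zero, mul_zero] at hc; exact b.ne_zero hc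
    rcases hc with hc | hc
    · left
      have h1 : (1 : Kˣ ⧸ Sq K) = ((1 : Kˣ) : Kˣ ⧸ Sq K) := rfl
      rw [h1, eq_comm, quot_eq]
      refine ⟨Units.mk0 c hc0, Units.ext ?_⟩
      rw [Units.val_mul, Units.val_one, one_mul, Units.val_pow_eq_pow_val, Units.val_mk0, hc]
    · right
      show (b : Kˣ ⧸ Sq K) = ((Units.mk0 (em0 e (im1 * ∏ l ∈ S, l)) hD0 : Kˣ) : Kˣ ⧸ Sq K)
      rw [eq_comm, quot_eq]
      refine ⟨Units.mk0 c hc0, Units.ext ?_⟩
      rw [Units.val_mul, Units.val_pow_eq_pow_val, Units.val_mk0, Units.val_mk0, hc]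
  have H1 : ∀ b : Kˣ, LL1 (0 : K) (em0 e ((∏ l ∈ S, l) ^ 2)) (b : K) → (b : Kˣ ⧸ Sq K) ∈ U := by
    intro b hb
    apply key
    apply sel2 e hS hker b.ne_zero
    intro v
    have := hb.1 v
    rwa [map_zero] at this
  have H2 : ∀ b : Kˣ, LL2 (0 : K) (em0 e ((∏ l ∈ S, l) ^ 2)) (b : K) → (b : Kˣ ⧸ Sq K) ∈ U := by
    intro b hb
    apply key
    apply sel2 e hS hker b.ne_zero
    intro v
    have := Pool.Agent.Y682.charZero_adic v
    have h1 := hb.1 v
    rw [map_zero] at h1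
    refine S2_S1 (i := algebraMap K (v.adicCompletion K) (em0 e im1)) ?_ h1
    rw [← map_pow, im1_sq, map_neg, map_one]
  obtain ⟨hf, hc⟩ := Zc_card hT (U := U) (V := U) (Or.inl rfl) H1 H2
  obtain ⟨h3, h4⟩ := Zc_lower hT
  have h6 : Nat.card (Zc W) ≤ 4 := hc.trans (by nlinarith)
  have h8 := h4.trans h6
  have hpos : 0 < Nat.card {x : Pool.Agent.TH841.NF.D.Sha W // 2 • x = 0} := by
    have : Nonempty {x : Pool.Agent.TH841.NF.D.Sha W // 2 • x = 0} := ⟨⟨0, smul_zero _⟩⟩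
    exact Nat.card_pos
  constructor
  · by_contra hne
    have h7 : 2 ≤ 2 ^ (Module.finrank ℤ (Pool.Agent.Y682.MP W)) := by
      calc 2 = 2 ^ 1 := by norm_num
        _ ≤ _ := Nat.pow_le_pow_right (by norm_num) (by omega)
    nlinarith
  · intro x hx
    have h5 : Nat.card {x : Pool.Agent.TH841.NF.D.Sha W // 2 • x = 0} ≤ 1 := by
      have h7 : 1 ≤ 2 ^ (Module.finrank ℤ (Pool.Agent.Y682.MP W)) := Nat.one_le_two_pow
      nlinarith
    have h6 : Subsingleton {x : Pool.Agent.TH841.NF.D.Sha W // 2 • x = 0} :=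
      Finite.card_le_one_iff_subsingleton.1 h5
    have h7 := @Subsingleton.elim _ h6 ⟨x, hx⟩ ⟨0, smul_zero _⟩
    exact congrArg Subtype.val h7

end

end Pool.Agent.R428.G
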