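import Mathlib
import Pool.Agent.R428.G.Sel

/-!
# A quartic over a finite field
-/

set_option autoImplicit false
set_option linter.unusedSectionVars false

open NumberField IsDedekindDomain

namespace Pool.Agent.R428.G

open H385 (ZI RQ im1 nrm)
open Pool.Agent.Y697.MQ (OP leg leg_mul leg_ne leg_eq_zero fin_quot)

section fin

variable {k : Type} [Field k] [Fintype k] [DecidableEq k]

lemma card_hyp (h2 : (2 : k) ≠ 0) {c : k} (hc : c ≠ 0) :
    Fintype.card {p : k × k // p.1 ^ 2 = p.2 ^ 2 + c} = Fintype.card {u : k // u ≠ 0} := by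
  refine Fintype.card_congr
    { toFun := fun p => ⟨p.1.1 - p.1.2, fun h => hc ?_⟩
      invFun := fun u => ⟨((u.1 + c / u.1) / 2, (c / u.1 - u.1) / 2), ?_⟩
      left_inv := ?_
      right_inv := ?_ }
  · have h1 := p.2
    linear_combination -h1 + (p.1.1 + p.1.2) * h
  · have hu := u.2
    field_simp
    ring
  · rintro ⟨⟨a, b⟩, h⟩
    have hab : a - b ≠ 0 := fun h' => hc (by
      simp only at h
      linear_combination -h + (a + b) * h')
    have h3 : c / (a - b) = a + b := by
      rw [div_eq_iff hab]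
      simp only at h
      linear_combination -h
    apply Subtype.ext
    show ((a - b + c / (a - b)) / 2, (c / (a - b) - (a - b)) / 2) = (a, b)
    rw [h3]
    congr 1
    · field_simp; ring
    · field_simp; ring
  · rintro ⟨u, hu⟩
    apply Subtype.ext
    show (u + c / u) / 2 - (c / u - u) / 2 = u
    field_simp
    ring

lemma sum_hyp (h2 : ringChar k ≠ 2) {c : k} (hc : c ≠ 0) :
    ∑ s : k, (quadraticChar k (s ^ 2 + c)) = -1 := by
  have h20 : (2 : k) ≠ 0 := Ring.two_ne_zero h2
  have h1 := card_hyp h20 hc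
  have h3 : Fintype.card {p : k × k // p.1 ^ 2 = p.2 ^ 2 + c} =
      ∑ s : k, Fintype.card {x : k // x ^ 2 = s ^ 2 + c} := by
    rw [← Fintype.card_sigma]
    refine Fintype.card_congr
      { toFun := fun p => ⟨p.1.2, ⟨p.1.1, p.2⟩⟩
        invFun := fun q => ⟨(q.2.1, q.1), q.2.2⟩
        left_inv := fun _ => rfl
        right_inv := fun _ => rfl }
  have h4 : ∀ s : k, (Fintype.card {x : k // x ^ 2 = s ^ 2 + c} : ℤ) =
      quadraticChar k (s ^ 2 + c) + 1 := by
    intro s
    rw [← quadraticChar_card_sqrts h2, Set.toFinset_card]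
    rfl
  have h5 : Fintype.card {u : k // u ≠ 0} = Fintype.card k - 1 := by
    rw [Fintype.card_subtype_compl, Fintype.card_subtype_eq]
  have h6 : 0 < Fintype.card k := Fintype.card_pos
  have h7 : ((∑ s : k, Fintype.card {x : k // x ^ 2 = s ^ 2 + c} : ℕ) : ℤ) =
      (Fintype.card k : ℤ) - 1 := by
    rw [← h3, h1, h5]
    push_cast [Nat.cast_sub h6]
    ring
  rw [Nat.cast_sum, Finset.sum_congr rfl fun s _ => h4 s, Finset.sum_add_distrib] at h7
  simp only [Finset.sum_const, Finset.card_univ, nsmul_eq_mul, mul_one] at h7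
  linarith

lemma exists_val (h2 : ringChar k ≠ 2) {i c D : k} (hi : i ^ 2 = -1) (hc : c ≠ 0) (hD : D ≠ 0) :
    quadraticChar k c = 1 ∨ quadraticChar k (i * D * c) = 1 ∨
      ∃ r : k, quadraticChar k (c * ((c * r ^ 2) ^ 2 + D ^ 2)) = 1 := by
  by_contra hcon
  push Not at hcon
  obtain ⟨h1, h3, h4⟩ := hcon
  have hi0 : i ≠ 0 := by
    rintro rfl
    rw [zero_pow two_ne_zero] at hi
    have : (1 : k) = 0 := by linear_combination hi
    exact one_ne_zero this
  have hc1 : quadraticChar k c = -1 := (quadraticChar_dichotomy hc).resolve_left h1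
  have hm1 : quadraticChar k (-1) = 1 := by
    rw [quadraticChar_one_iff_isSquare (neg_ne_zero.2 one_ne_zero)]
    exact ⟨i, by rw [← hi, sq]⟩
  have h3' : quadraticChar k (i * D) = 1 := by
    rcases quadraticChar_dichotomy (mul_ne_zero hi0 hD) with h | h
    · exact h
    · exfalso
      apply h3
      rw [map_mul, h, hc1]
      norm_num
  have key : ∀ s : k, 0 ≤ quadraticChar k (s ^ 2 + D ^ 2) + quadraticChar k s := by
    intro s
    by_cases hs0 : s = 0
    · subst hs0
      rw [zero_pow two_ne_zero, zero_add, quadraticChar_sq_one' hD, quadraticChar_zero]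
      norm_num
    rcases quadraticChar_dichotomy hs0 with hs | hs
    · rw [hs]
      by_cases h0 : s ^ 2 + D ^ 2 = 0
      · rw [h0, quadraticChar_zero]; norm_num
      · rcases quadraticChar_dichotomy h0 with h | h <;> rw [h] <;> norm_num
    · have h5 : quadraticChar k (s * c) = 1 := by rw [map_mul, hs, hc1]; norm_num
      rw [quadraticChar_one_iff_isSquare (mul_ne_zero hs0 hc)] at h5
      obtain ⟨r, hr⟩ := h5
      have hr2 : c * (r / c) ^ 2 = s := by
        field_simp
        linear_combination -hr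
      have h6 := h4 (r / c)
      rw [hr2, map_mul, hc1] at h6
      have h0 : s ^ 2 + D ^ 2 ≠ 0 := by
        intro h0
        have h7 : s ^ 2 = (i * D) ^ 2 := by
          rw [mul_pow, hi]; linear_combination h0
        rcases sq_eq_sq_iff_eq_or_eq_neg.1 h7 with h8 | h8
        · rw [h8, h3'] at hs
          norm_num at hs
        · rw [h8, neg_eq_neg_one_mul, map_mul, hm1, h3'] at hs
          norm_num at hs
      rcases quadraticChar_dichotomy h0 with h | h
      · rw [h, hs]; norm_num
      · rw [h] at h6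
        exact absurd (by norm_num) h6
  have hsum : ∑ s : k, (quadraticChar k (s ^ 2 + D ^ 2) + quadraticChar k s) = -1 := by
    rw [Finset.sum_add_distrib, sum_hyp h2 (pow_ne_zero 2 hD), quadraticChar_sum_zero h2]
    norm_num
  have h9 := Finset.sum_nonneg fun (s : k) (_ : s ∈ Finset.univ) => key s
  rw [hsum] at h9
  norm_num at h9

end fin

/-- the form with the symbols of the Gaussian integers -/
lemma exists_leg {z : ZI} (hz : Prime z) (h2 : ¬ z ∣ 2) {c D : ZI} (hc : ¬ z ∣ c)
    (hD : ¬ z ∣ D) : leg z c = 1 ∨ leg z (im1 * D * c) = 1 ∨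
      ∃ r : ZI, leg z (c * ((c * r ^ 2) ^ 2 + D ^ 2)) = 1 := by
  classical
  have := Pool.Agent.Y697.MQ.Prime.max hz
  let _ : Field (GaussianInt ⧸ Ideal.span {z}) := Ideal.Quotient.field _
  have := fin_quot hz.ne_zero
  let _ := Fintype.ofFinite (GaussianInt ⧸ Ideal.span {z})
  have hmem : ∀ a : ZI, Ideal.Quotient.mk (Ideal.span {z}) a = 0 ↔ z ∣ a := fun a => by
    rw [Ideal.Quotient.eq_zero_iff_mem, Ideal.mem_span_singleton]
  have hch : ringChar (GaussianInt ⧸ Ideal.span {z}) ≠ 2 := by
    intro h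
    have h2' : ((2 : ℕ) : GaussianInt ⧸ Ideal.span {z}) = 0 := by
      rw [← h]; exact ringChar.Nat.cast_ringChar
    have h3 : Ideal.Quotient.mk (Ideal.span {z}) 2 = 0 := by
      rw [← h2']; exact map_natCast (Ideal.Quotient.mk (Ideal.span {z})) 2
    exact h2 ((hmem 2).1 h3)
  have key : ∀ c : GaussianInt, leg z c =
      quadraticChar (GaussianInt ⧸ Ideal.span {z}) (Ideal.Quotient.mk _ c) := by
    intro c
    have h1 : z ∣ c ↔ Ideal.Quotient.mk (Ideal.span {z}) c = 0 := (hmem c).symm
    have h2 : (∃ b : GaussianInt, z ∣ b ^ 2 - c) ↔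
        IsSquare (Ideal.Quotient.mk (Ideal.span {z}) c) := by
      constructor
      · rintro ⟨d, hd⟩
        refine ⟨Ideal.Quotient.mk _ d, ?_⟩
        rw [← map_mul, ← pow_two]
        symm
        rw [Ideal.Quotient.mk_eq_mk_iff_sub_mem, Ideal.mem_span_singleton]
        exact hd
      · rintro ⟨d, hd⟩
        obtain ⟨d, rfl⟩ := Ideal.Quotient.mk_surjective d
        refine ⟨d, ?_⟩
        rw [← map_mul, ← pow_two] at hd
        rw [← Ideal.mem_span_singleton, ← Ideal.Quotient.mk_eq_mk_iff_sub_mem]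
        exact hd.symm
    rw [quadraticChar_apply]
    unfold leg quadraticCharFun
    simp only [h1, h2]
  have hi : (Ideal.Quotient.mk (Ideal.span {z}) im1) ^ 2 = -1 := by
    rw [← map_pow, show im1 ^ 2 = -1 by decide, map_neg, map_one]
  rcases exists_val hch hi (fun h => hc ((hmem c).1 h)) (fun h => hD ((hmem D).1 h)) with h | h | h
  · left; rw [key]; exact h
  · right; left
    rw [key, RingHom.map_mul, RingHom.map_mul]; exact h
  · right; right
    obtain ⟨r, hr⟩ := h
    obtain ⟨r, rfl⟩ := Ideal.Quotient.mk_surjective r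
    refine ⟨r, ?_⟩
    rw [key, RingHom.map_mul, RingHom.map_add, RingHom.map_pow, RingHom.map_mul, RingHom.map_pow,
      RingHom.map_pow]
    exact hr

end Pool.Agent.R428.G
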