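import Mathlib
import Pool.Agent.R428.G.Sel
import Pool.Agent.TH942.FG
import Pool.Agent.Y697.MQ.Rk

/-!
# The torsion of `y² = x³ + D² x` over `ℚ(i)`
-/

set_option autoImplicit false
set_option linter.unusedSectionVars false

open NumberField IsDedekindDomain

namespace Pool.Agent.R428.G

open WeierstrassCurve
open Pool.Agent.Y715.Z (em0 em0_ne em0_inj em0_apply im1_sq q4 q4_eqn)
open H385 (ZI RQ im1 nrm)
open Pool.Agent.Y697.MQ (OP Pr Pr_prod Pr_iff)
open Pool.Agent.Y698 (Wr Te dv dv_T dv_ne dv_ne_zero)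

section grp

variable {A : Type} [AddCommGroup A]

/-- a finite group where the points killed by four are killed by two -/
lemma card_four [Finite A] (h4 : Nat.card {x : A // x + x = 0} = 4)
    (hno : ∀ x : A, (x + x) + (x + x) = 0 → x + x = 0) : ∃ t : ℕ, Odd t ∧ Nat.card A = 4 * t := by
  let f : A →+ A := zsmulAddGroupHom 2
  have hf : ∀ x, f x = x + x := fun x => two_zsmul x
  have h1 : Nat.card f.ker = 4 := by
    rw [← h4]
    refine Nat.card_congr (Equiv.subtypeEquivRight fun x => ?_)
    rw [AddMonoidHom.mem_ker, hf]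
  have h2 : Nat.card A = Nat.card f.ker * Nat.card f.range := by
    rw [AddSubgroup.card_eq_card_quotient_mul_card_addSubgroup f.ker, mul_comm]
    congr 1
    exact Nat.card_congr (QuotientAddGroup.quotientKerEquivRange f).toEquiv
  refine ⟨Nat.card f.range, ?_, by rw [h2, h1]⟩
  by_contra hodd
  rw [Nat.not_odd_iff_even, even_iff_two_dvd] at hodd
  have : Fact (Nat.Prime 2) := ⟨Nat.prime_two⟩
  obtain ⟨⟨y, x, hx⟩, hy⟩ := exists_prime_addOrderOf_dvd_card' 2 hodd
  have hy2 : y + y = 0 := by
    have h3 := addOrderOf_nsmul_eq_zero (⟨y, x, hx⟩ : f.range)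
    rw [hy] at h3
    have h5 := congrArg Subtype.val h3
    rw [two_nsmul] at h5
    exact h5
  have hy0 : y ≠ 0 := by
    rintro h0
    have h3 : (⟨y, x, hx⟩ : f.range) = 0 := Subtype.ext h0
    rw [h3, addOrderOf_zero] at hy
    norm_num at hy
  apply hy0
  rw [← hx, hf] at hy2 ⊢
  exact hno x hy2

/-- the torsion group of a finitely generated group -/
lemma torsion_finite (hA : Module.Finite ℤ A) : Finite (AddCommGroup.torsion A) := by
  have hsub : AddGroup.FG (AddCommGroup.torsion A) := by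
    rw [← Module.Finite.iff_addGroup_fg]
    have h6 : Module.Finite ℤ (AddSubgroup.toIntSubmodule (AddCommGroup.torsion A)) :=
      inferInstance
    exact h6
  have htor : IsAddTorsion (AddCommGroup.torsion A) := by
    intro x
    have hx := x.2
    rw [AddCommGroup.mem_torsion, isOfFinAddOrder_iff_nsmul_eq_zero] at hx
    obtain ⟨n, hn, hx⟩ := hx
    rw [isOfFinAddOrder_iff_nsmul_eq_zero]
    exact ⟨n, hn, Subtype.ext (by simpa using hx)⟩
  exact AddCommGroup.finite_of_fg_isAddTorsion _ htor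

/-- the order of the torsion group -/
lemma card_torsion (hA : Module.Finite ℤ A) (h4 : Nat.card {x : A // x + x = 0} = 4)
    (hno : ∀ x : A, (x + x) + (x + x) = 0 → x + x = 0) :
    ∃ t : ℕ, Odd t ∧ Nat.card (AddCommGroup.torsion A) = 4 * t := by
  have hfin := torsion_finite hA
  refine card_four ?_ fun x hx => Subtype.ext (hno x.1 (congrArg Subtype.val hx))
  rw [← h4]
  refine Nat.card_congr
    { toFun := fun x => ⟨x.1.1, congrArg Subtype.val x.2⟩
      invFun := fun x => ⟨⟨x.1, ?_⟩, Subtype.ext x.2⟩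
      left_inv := fun x => rfl
      right_inv := fun x => rfl }
  change IsOfFinAddOrder x.1
  rw [isOfFinAddOrder_iff_nsmul_eq_zero]
  exact ⟨2, by norm_num, by rw [two_nsmul, x.2]⟩

end grp

section crv

variable {L : Type} [Field L] [CharZero L] [DecidableEq L] {δ i : L}

lemma ns_of (hδ : δ ≠ 0) {x y : L} (h : y ^ 2 = x ^ 3 + δ ^ 2 * x) :
    (q4 (δ ^ 2)).toAffine.Nonsingular x y := by
  have := (Pool.Agent.Y697.MQ.nonsing_iff (δ := δ) hδ two_ne_zero x y).2 h
  exact this

lemma two_y {x y : L} (h : (q4 (δ ^ 2)).toAffine.Nonsingular x y)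
    (h2 : (.some x y h : (q4 (δ ^ 2)).toAffine.Point) + .some x y h = 0) : y = 0 := by
  rw [add_eq_zero_iff_eq_neg, Affine.Point.neg_some, Affine.Point.some.injEq] at h2
  have h3 : y = -y := by
    have := h2.2
    simpa [Affine.negY, q4] using this
  have h4 : 2 * y = 0 := by linear_combination h3
  exact (mul_eq_zero.1 h4).resolve_left two_ne_zero

lemma y_two {x : L} (h : (q4 (δ ^ 2)).toAffine.Nonsingular x 0) :
    (.some x 0 h : (q4 (δ ^ 2)).toAffine.Point) + .some x 0 h = 0 := by
  rw [add_eq_zero_iff_eq_neg, Affine.Point.neg_some, Affine.Point.some.injEq]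
  exact ⟨rfl, by simp [Affine.negY, q4]⟩

/-- four points are killed by two -/
lemma card_two (hδ : δ ≠ 0) (hi : i ^ 2 = -1) :
    Nat.card {x : (q4 (δ ^ 2)).toAffine.Point // x + x = 0} = 4 := by
  have hi0 := i_ne hi
  have h2 : (2 : L) ≠ 0 := two_ne_zero
  have hiδ : i * δ ≠ 0 := mul_ne_zero hi0 hδ
  have h0 := ns_of (δ := δ) hδ (x := 0) (y := 0) (by ring)
  have h1 := ns_of (δ := δ) hδ (x := i * δ) (y := 0) (by linear_combination (-i * δ ^ 3) * hi)
  have h3 := ns_of (δ := δ) hδ (x := -(i * δ)) (y := 0) (by linear_combination (i * δ ^ 3) * hi)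
  let F : Option (Fin 3) → {x : (q4 (δ ^ 2)).toAffine.Point // x + x = 0} := fun j => match j with
    | none => ⟨0, add_zero 0⟩
    | some 0 => ⟨_, y_two h0⟩
    | some 1 => ⟨_, y_two h1⟩
    | some 2 => ⟨_, y_two h3⟩
  have hne : i * δ ≠ -(i * δ) := by
    intro h
    have h4 : 2 * (i * δ) = 0 := by linear_combination h
    exact mul_ne_zero h2 hiδ h4
  have hF : Function.Bijective F := by
    constructor
    · intro a b hab
      have h := congrArg Subtype.val hab
      rcases a with _ | a <;> rcases b with _ | b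
      · rfl
      · exfalso
        fin_cases b
        · exact Affine.Point.some_ne_zero h0 h.symm
        · exact Affine.Point.some_ne_zero h1 h.symm
        · exact Affine.Point.some_ne_zero h3 h.symm
      · exfalso
        fin_cases a
        · exact Affine.Point.some_ne_zero h0 h
        · exact Affine.Point.some_ne_zero h1 h
        · exact Affine.Point.some_ne_zero h3 h
      · fin_cases a <;> fin_cases b
        · rfl
        · exact absurd ((Affine.Point.some.injEq _ _ _ _ _ _).mp h).1.symm hiδ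
        · exact absurd ((Affine.Point.some.injEq _ _ _ _ _ _).mp h).1.symm (neg_ne_zero.2 hiδ)
        · exact absurd ((Affine.Point.some.injEq _ _ _ _ _ _).mp h).1 hiδ
        · rfl
        · exact absurd ((Affine.Point.some.injEq _ _ _ _ _ _).mp h).1 hne
        · exact absurd ((Affine.Point.some.injEq _ _ _ _ _ _).mp h).1 (neg_ne_zero.2 hiδ)
        · exact absurd ((Affine.Point.some.injEq _ _ _ _ _ _).mp h).1.symm hne
        · rfl
    · rintro ⟨P, hP⟩
      rcases P with _ | ⟨x, y, h⟩
      · exact ⟨none, rfl⟩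
      · have hy := two_y h hP
        subst hy
        have hE := q4_eqn.1 h.1
        have hf : x * ((x - i * δ) * (x + i * δ)) = 0 := by
          linear_combination (-x * δ ^ 2) * hi - hE
        rcases mul_eq_zero.1 hf with h5 | h5
        · subst h5
          exact ⟨some 0, rfl⟩
        · rcases mul_eq_zero.1 h5 with h6 | h6
          · obtain rfl : x = i * δ := sub_eq_zero.1 h6
            exact ⟨some 1, rfl⟩
          · obtain rfl : x = -(i * δ) := eq_neg_of_add_eq_zero_left h6
            exact ⟨some 2, rfl⟩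
  rw [← Nat.card_eq_of_bijective F hF]
  simp

/-- no point of order four -/
lemma no_four (hδ : δ ≠ 0) (hi : i ^ 2 = -1) (hns : ¬ IsSquare (i * δ))
    (P : (q4 (δ ^ 2)).toAffine.Point) (hP : (P + P) + (P + P) = 0) : P + P = 0 := by
  have hi0 := i_ne hi
  have hiδ : i * δ ≠ 0 := mul_ne_zero hi0 hδ
  have hns' : ¬ IsSquare (-(i * δ)) := by
    rintro ⟨r, hr⟩
    apply hns
    refine ⟨i * r, ?_⟩
    linear_combination (-1 : L) * hr - r ^ 2 * hi
  by_contra hne
  rcases hQ : P + P with _ | ⟨x, y, h⟩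
  · exact hne (hQ.trans rfl)
  · rw [hQ] at hP
    have hy := two_y h hP
    subst hy
    have hE := q4_eqn.1 h.1
    rcases P with _ | ⟨x₁, y₁, h₁⟩
    · exact absurd (hQ.symm.trans (add_zero _)) (Affine.Point.some_ne_zero h)
    -- the two coordinates
    have key : ∀ (e' β' : L), dv e' β' x₁ ≠ 0 → (∃ ν : L, ν ≠ 0 ∧
        dv e' β' x₁ * dv e' β' x₁ * dv e' β' x = ν ^ 2) → IsSquare (dv e' β' x) := by
      rintro e' β' h3 ⟨ν, -, hν⟩
      refine ⟨ν / dv e' β' x₁, ?_⟩
      field_simp
      linear_combination hν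
    have k0 := key _ _ (dv_ne_zero (wr0 hδ) x₁) ((wr0 hδ).dv_line hQ)
    have ki := key _ _ (dv_ne_zero (wri hδ hi) x₁) ((wri hδ hi).dv_line hQ)
    have hf : x * ((x - i * δ) * (x + i * δ)) = 0 := by
      linear_combination (-x * δ ^ 2) * hi - hE
    rcases mul_eq_zero.1 hf with h5 | h5
    · rw [h5, dv_ne hiδ.symm, zero_sub] at ki
      exact hns' ki
    · have hx0 : x ≠ 0 := by
        rintro rfl
        rw [zero_sub, zero_add] at h5
        exact mul_ne_zero (neg_ne_zero.2 hiδ) hiδ h5
      rw [dv_ne hx0, sub_zero] at k0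
      rcases mul_eq_zero.1 h5 with h6 | h6
      · rw [sub_eq_zero.1 h6] at k0
        exact hns k0
      · rw [eq_neg_of_add_eq_zero_left h6] at k0
        exact hns' k0

end crv

section

variable {K : Type} [Field K] [NumberField K] (e : ZI ≃+* 𝓞 K)

/-- `i D` is not a square -/
lemma not_sq {D : ZI} (hsq : Squarefree D) (hD : Pr D) : ¬ IsSquare (em0 e (im1 * D)) := by
  rintro ⟨r, hr⟩
  have hint : IsIntegral (𝓞 K) r := by
    refine IsIntegral.of_pow (n := 2) (by norm_num) ?_
    rw [sq, ← hr]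
    exact isIntegral_algebraMap
  obtain ⟨a', ha'⟩ := IsIntegrallyClosed.isIntegral_iff.1 hint
  obtain ⟨a, rfl⟩ := e.surjective a'
  have h1 : a * a = im1 * D := by
    apply em0_inj e
    rw [map_mul, hr]
    show algebraMap (𝓞 K) K (e a) * algebraMap (𝓞 K) K (e a) = _
    rw [ha']
  have h2 : a * a ∣ D := by
    refine ⟨-im1, ?_⟩
    have : im1 ^ 2 = -1 := by decide
    rw [h1]
    linear_combination D * this
  have h3 := hsq a h2
  have h4 : IsUnit D := by
    have h5 : IsUnit (im1 * D) := by rw [← h1]; exact h3.mul h3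
    exact isUnit_of_mul_isUnit_right h5
  have h5 : D = 1 := hD.unit h4
  rw [h5, mul_one] at h1
  have h6 := congrArg Zsqrtd.re h1
  have h7 := congrArg Zsqrtd.im h1
  simp only [Zsqrtd.re_mul, Zsqrtd.im_mul, im1] at h6 h7
  have h8 : 2 * (a.re * a.im) = 1 := by linarith
  omega

/-- **the order of the torsion group** -/
theorem tors_four {S : Finset GaussianInt} (hS : ∀ l ∈ S, OP l) [DecidableEq K] :
    ∃ t : ℕ, Odd t ∧
      Nat.card (AddCommGroup.torsion (q4 (em0 e ((∏ l ∈ S, l) ^ 2))).toAffine.Point) = 4 * t := by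
  have hsq : Squarefree (∏ l ∈ S, l) := by
    refine Finset.squarefree_prod_of_pairwise_isCoprime (fun a ha b hb hab => ?_)
      fun x hx => (hS x hx).pr.squarefree
    exact (((hS a ha).pr.irreducible.coprime_iff_not_dvd).2 fun h1 =>
      hab ((hS a ha).dvd (hS b hb) h1)).isRelPrime
  have hD0 : em0 e (∏ l ∈ S, l) ≠ 0 := em0_ne e hsq.ne_zero
  rw [map_pow]
  have hns : ¬ IsSquare (em0 e im1 * em0 e (∏ l ∈ S, l)) := by
    rw [← map_mul]
    exact not_sq e hsq (Pr_prod fun p hp => (hS p hp).pm)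
  refine card_torsion ?_ (card_two hD0 (im1_sq e)) fun P hP => no_four hD0 (im1_sq e) hns P hP
  rw [Module.Finite.iff_addGroup_fg]
  exact Pool.Agent.TH942.sfg (by
    have : 4 * ((em0 e (∏ l ∈ S, l)) ^ 2) ^ 3 + 27 * (0 : K) ^ 2 =
      4 * (em0 e (∏ l ∈ S, l)) ^ 6 := by ring
    rw [this]
    exact mul_ne_zero (OfNat.ofNat_ne_zero 4) (pow_ne_zero 6 hD0))

end

end Pool.Agent.R428.G
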