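import Mathlib
import Pool.Agent.R428.G.Tor

/-!
# The classes of the points if there are finitely many
-/

set_option autoImplicit false
set_option linter.unusedSectionVars false

open NumberField IsDedekindDomain

namespace Pool.Agent.R428.G

open WeierstrassCurve
open Pool.Agent.Y715.Z (em0 em0_ne em0_inj em0_apply im1_sq q4 q4_eqn)
open H385 (ZI RQ im1 nrm)
open Pool.Agent.Y697.MQ (OP Pr Pr_prod Pr_iff)
open Pool.Agent.Y698 (Wr Te dv dv_T dv_ne dv_ne_zero)

section kap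

variable {L : Type} [Field L] [CharZero L] [DecidableEq L] {W : WeierstrassCurve L} {e α β : L}

/-- the class of a point -/
def kap (e β : L) : W.toAffine.Point → L
  | .zero => 1
  | .some X _ _ => dv e β X

lemma kap_zero : kap (W := W) e β 0 = 1 := rfl

lemma kap_some {X Y : L} (h : W.toAffine.Nonsingular X Y) :
    kap (W := W) e β (.some X Y h) = dv e β X := rfl

variable (S : Wr W e α β)
include S

lemma kap_ne (P : W.toAffine.Point) : kap e β P ≠ 0 := by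
  rcases P with _ | ⟨X, Y, h⟩
  · exact one_ne_zero
  · exact dv_ne_zero S X

lemma kap_neg (P : W.toAffine.Point) : kap e β (-P) = kap e β P := by
  rcases P with _ | ⟨X, Y, h⟩
  · rfl
  · obtain ⟨h', e1⟩ := S.neg_some h
    rw [e1]
    rfl

/-- the homomorphism property -/
lemma kap_add (P Q : W.toAffine.Point) :
    ∃ ν : L, ν ≠ 0 ∧ kap e β P * kap e β Q * kap e β (P + Q) = ν ^ 2 := by
  by_cases h1 : P = 0
  · subst h1
    rw [zero_add]
    exact ⟨kap e β Q, kap_ne S Q, by rw [kap_zero]; ring⟩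
  by_cases h2 : Q = 0
  · subst h2
    rw [add_zero]
    exact ⟨kap e β P, kap_ne S P, by rw [kap_zero]; ring⟩
  by_cases h3 : P + Q = 0
  · have h4 : Q = -P := (neg_eq_of_add_eq_zero_right h3).symm
    rw [h3, h4, kap_neg S]
    exact ⟨kap e β P, kap_ne S P, by rw [kap_zero]; ring⟩
  obtain ⟨R, hR⟩ : ∃ R, R = P + Q := ⟨_, rfl⟩
  rw [← hR] at h3 ⊢
  rcases P with _ | ⟨X₁, Y₁, k1⟩
  · exact absurd rfl h1
  rcases Q with _ | ⟨X₂, Y₂, k2⟩
  · exact absurd rfl h2
  rcases R with _ | ⟨X₃, Y₃, k3⟩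
  · exact absurd rfl h3
  exact S.dv_line hR.symm

lemma kap_two (P : W.toAffine.Point) : ∃ ν : L, ν ≠ 0 ∧ kap e β (P + P) = ν ^ 2 := by
  obtain ⟨ν, h1, h2⟩ := kap_add S P P
  have h3 := kap_ne S P
  refine ⟨ν / kap e β P, div_ne_zero h1 h3, ?_⟩
  rw [div_pow, ← h2]
  field_simp

end kap

section fin

variable {L : Type} [Field L] [CharZero L] [DecidableEq L] {δ i : L}

/-- if there are `4 t` points, `t` odd, then the classes are those of the points of order two -/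
lemma cls_fin (hδ : δ ≠ 0) (hi : i ^ 2 = -1) (hns : ¬ IsSquare (i * δ))
    {t : ℕ} (ht : Odd t) (hc : Nat.card (q4 (δ ^ 2)).toAffine.Point = 4 * t) {x y : L} (hx : x ≠ 0)
    (h : y ^ 2 = x ^ 3 + δ ^ 2 * x) : ∃ c : L, c ≠ 0 ∧ (x = c ^ 2 ∨ x = i * δ * c ^ 2) := by
  have hi0 := i_ne hi
  have hiδ : i * δ ≠ 0 := mul_ne_zero hi0 hδ
  have S := wr0 hδ
  have hns' := ns_of hδ h
  obtain ⟨P, hP⟩ : ∃ P : (q4 (δ ^ 2)).toAffine.Point, P = .some x y hns' := ⟨_, rfl⟩
  obtain ⟨m, hm⟩ := ht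
  obtain ⟨R, hR⟩ : ∃ R : (q4 (δ ^ 2)).toAffine.Point, R = m • P := ⟨_, rfl⟩
  obtain ⟨Q, hQ⟩ : ∃ Q : (q4 (δ ^ 2)).toAffine.Point, Q = P + (R + R) := ⟨_, rfl⟩
  have hQt : Q = t • P := by
    rw [hQ, hR, hm, add_smul, one_smul, mul_smul, two_smul, add_comm]
  have h4 : (Q + Q) + (Q + Q) = 0 := by
    have h5 : (Q + Q) + (Q + Q) = 4 • Q := by
      rw [← two_nsmul, ← two_nsmul, ← mul_smul]
      norm_num
    have : Finite (q4 (δ ^ 2)).toAffine.Point := by
      apply Nat.finite_of_card_ne_zero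
      rw [hc]
      omega
    rw [h5, hQt, ← mul_smul, ← hc]
    exact card_nsmul_eq_zero'
  have h2 := no_four hδ hi hns Q h4
  obtain ⟨ν, hν0, hν⟩ := kap_add S P (R + R)
  obtain ⟨μ, hμ0, hμ⟩ := kap_two S R
  rw [← hQ, hμ, hP, kap_some, dv_ne hx, sub_zero] at hν
  -- the class of `Q`
  have hQc : ∃ c : L, c ≠ 0 ∧ (kap 0 (δ ^ 2) Q = c ^ 2 ∨ kap 0 (δ ^ 2) Q = i * δ * c ^ 2) := by
    rcases Q with _ | ⟨X, Y, k⟩
    · exact ⟨1, one_ne_zero, Or.inl (by rw [one_pow]; rfl)⟩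
    · have hY := two_y k h2
      subst hY
      have hE := q4_eqn.1 k.1
      rw [kap_some]
      by_cases hX : X = 0
      · rw [hX, dv_T]
        exact ⟨δ, hδ, Or.inl rfl⟩
      · rw [dv_ne hX, sub_zero]
        have hf : X * ((X - i * δ) * (X + i * δ)) = 0 := by
          linear_combination (-X * δ ^ 2) * hi - hE
        rcases mul_eq_zero.1 ((mul_eq_zero.1 hf).resolve_left hX) with h6 | h6
        · exact ⟨1, one_ne_zero, Or.inr (by linear_combination h6)⟩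
        · exact ⟨i, hi0, Or.inr (by rw [hi]; linear_combination h6)⟩
  obtain ⟨c, hc0, hc1⟩ := hQc
  rcases hc1 with hc1 | hc1
  · refine ⟨ν / (μ * c), div_ne_zero hν0 (mul_ne_zero hμ0 hc0), Or.inl ?_⟩
    rw [hc1] at hν
    rw [div_pow, ← hν]
    field_simp
  · refine ⟨ν / (μ * c * (i * δ)), div_ne_zero hν0 (mul_ne_zero (mul_ne_zero hμ0 hc0) hiδ),
      Or.inr ?_⟩
    rw [hc1] at hν
    rw [div_pow, ← hν]
    field_simp

end fin

end Pool.Agent.R428.G
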