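import Mathlib
import Pool.Agent.R428.G.Sel

/-!
# Minimality and Tamagawa numbers of `y² = x³ + D² x` over `ℚ(i)`
-/

set_option autoImplicit false
set_option linter.unusedSectionVars false

open NumberField IsDedekindDomain

namespace Pool.Agent.R428.G

open scoped Classical
open WeierstrassCurve WithZero
open Pool.Agent.Y682 (vv vv_coe)
open Pool.Agent.Y696 (NonsingRed)
open Pool.Agent.Y699 (PP qr pi1 pi1_prime plc pg pg_span pg_prime plc_pg mem_iff)
open Pool.Agent.Y715.Z (em0 em0_ne em0_inj em0_apply plc_mem val_lt val_le val_one val_z val_sqf ph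
  im1_sq q4 q4_Δ q4_map isMinimal_q4 mem_max approx val_pow_le val_two1 ns_good)
open H385 (ZI RQ im1 nrm)
open Pool.Agent.Y697.MQ (OP Pr Pr_prod Pr_iff)

section

variable {K : Type} [Field K] [NumberField K] (e : ZI ≃+* 𝓞 K)

lemma sqf_prod {S : Finset GaussianInt} (hS : ∀ l ∈ S, OP l) : Squarefree (∏ l ∈ S, l) := by
  refine Finset.squarefree_prod_of_pairwise_isCoprime (fun a ha b hb hab => ?_)
    fun x hx => (hS x hx).pr.squarefree
  exact (((hS a ha).pr.irreducible.coprime_iff_not_dvd).2 fun h1 =>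
    hab ((hS a ha).dvd (hS b hb) h1)).isRelPrime

lemma not_two {S : Finset GaussianInt} (hS : ∀ l ∈ S, OP l) {z : ZI} (hz : Prime z)
    (h : z ∣ ∏ l ∈ S, l) : ¬ z ∣ 2 := by
  intro h2
  obtain ⟨l, hl, hzl⟩ := (hz.dvd_finsetProd_iff _).1 h
  have ha : Associated z l := hz.associated_of_dvd (hS l hl).pr hzl
  exact (hS l hl).two (ha.symm.dvd.trans h2)

lemma pi_dvd {S : Finset GaussianInt} (hS : ∀ l ∈ S, OP l) : pi1 ^ 3 ∣ (∏ l ∈ S, l) - 1 := by
  obtain ⟨b, hb⟩ := (Pr_iff _).1 (Pr_prod fun p hp => (hS p hp).pm)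
  rw [hb]
  refine Dvd.dvd.mul_right ⟨⟨0, -1⟩, by decide⟩ _

lemma not_dvd_pi {a : ZI} (h : ¬ pi1 ∣ a) : pi1 ∣ a - 1 := by
  have h1 : ∀ b : ZI, (b.re + b.im) % 2 = 0 → pi1 ∣ b := by
    intro b hb
    refine ⟨⟨(b.re + b.im) / 2, (b.im - b.re) / 2⟩, ?_⟩
    ext
    · simp only [pi1, Zsqrtd.re_mul]
      omega
    · simp only [pi1, Zsqrtd.im_mul]
      omega
  apply h1
  have h2 : (a.re + a.im) % 2 ≠ 0 := fun h3 => h (h1 a h3)
  simp only [Zsqrtd.re_sub, Zsqrtd.im_sub, Zsqrtd.re_one, Zsqrtd.im_one]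
  omega

lemma dvd_pi_of_two {z : ZI} (hz : Prime z) (h2 : z ∣ 2) :
    plc e hz = (plc e pi1_prime : HeightOneSpectrum (𝓞 K)) := by
  have hzp : z ∣ pi1 := by
    have h3 : (2 : ZI) = pi1 * (pi1 * (-im1)) := by decide
    rw [h3] at h2
    rcases hz.dvd_or_dvd h2 with h4 | h4
    · exact h4
    · rcases hz.dvd_or_dvd h4 with h5 | h5
      · exact h5
      · exfalso
        exact hz.not_isUnit (isUnit_of_dvd_unit h5 (IsUnit.of_mul_eq_one im1 (by decide)))
  apply HeightOneSpectrum.ext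
  show Ideal.span {e z} = Ideal.span {e pi1}
  rw [Ideal.span_singleton_eq_span_singleton]
  have h3 : Associated z pi1 := (hz.dvd_prime_iff_associated pi1_prime).1 hzp
  exact h3.map (e : ZI →* 𝓞 K)

/-- the place `1 + i` -/
lemma l2_place : ∀ u : HeightOneSpectrum (𝓞 K), u = plc e pi1_prime →
    L2 (vv u) (algebraMap K (u.adicCompletion K) (em0 e im1)) := by
  rintro u rfl
  refine ⟨?_, ?_, ?_⟩
  · rw [← map_pow, im1_sq, map_neg, map_one]
  · have h3 : (2 : (plc e pi1_prime).adicCompletion K) = ph e pi1_prime 2 :=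
      (map_ofNat _ 2).symm
    rw [h3, vv_coe, val_two1]
  · intro x hx
    obtain ⟨a, ha⟩ := approx e pi1_prime hx.le 0 le_rfl
    rw [neg_zero, exp_zero] at ha
    have hna : ¬ pi1 ∣ a := by
      intro hd
      have h7 := (val_lt e pi1_prime a).2 hd
      have h8 : vv (plc e pi1_prime) x < 1 := by
        have : x = (x - ph e pi1_prime (em0 e a)) + ph e pi1_prime (em0 e a) := by ring
        rw [this]
        refine lt_of_le_of_lt (Valuation.map_add _ _ _) (max_lt ha ?_)
        rw [vv_coe]; exact h7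
      rw [hx] at h8
      exact lt_irrefl _ h8
    have h9 : vv (plc e pi1_prime) (ph e pi1_prime (em0 e (a - 1))) < 1 := by
      rw [vv_coe]
      exact (val_lt e pi1_prime (a - 1)).2 (not_dvd_pi hna)
    have e1 : x - 1 = (x - ph e pi1_prime (em0 e a)) + ph e pi1_prime (em0 e (a - 1)) := by
      rw [map_sub, map_sub, map_one, map_one]; ring
    rw [e1]
    exact lt_of_le_of_lt (Valuation.map_add _ _ _) (max_lt ha h9)

lemma near_one {D : ZI} (hD : pi1 ^ 3 ∣ D - 1) : ∀ u : HeightOneSpectrum (𝓞 K),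
    u = plc e pi1_prime → vv u (algebraMap K (u.adicCompletion K) (em0 e D) - 1) ≤ exp (-3 : ℤ) := by
  rintro u rfl
  have h1 := (val_pow_le e (K := K) pi1_prime (D - 1) 3).2 hD
  have e1 : ph e pi1_prime (em0 e D) - 1 = ph e pi1_prime (em0 e (D - 1)) := by
    rw [map_sub, map_sub, map_one, map_one]
  rw [show algebraMap K ((plc e pi1_prime).adicCompletion K) (em0 e D) =
    ph e pi1_prime (em0 e D) from rfl, e1, vv_coe]
  exact_mod_cast h1

/-- **minimality** -/
theorem minD {D : ZI} (hsq : Squarefree D) (hP : ∀ z : ZI, Prime z → z ∣ D → ¬ z ∣ 2)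
    (hD3 : pi1 ^ 3 ∣ D - 1) (v : HeightOneSpectrum (𝓞 K)) :
    WeierstrassCurve.IsMinimal (v.adicCompletionIntegers K)
      (q4 (algebraMap K (v.adicCompletion K) (em0 e (D ^ 2)))) := by
  have hbc : q4 (algebraMap K (v.adicCompletion K) (em0 e (D ^ 2))) =
      q4 (algebraMap (v.adicCompletionIntegers K) (v.adicCompletion K)
        (algebraMap (𝓞 K) (v.adicCompletionIntegers K) (e (D ^ 2)))) := by
    congr 1
  rw [hbc]
  apply isMinimal_q4
  rw [← hbc]
  intro C hC u₀ hu₀ hu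
  obtain ⟨z, hz, rfl⟩ : ∃ (z : ZI) (hz : Prime z), v = plc e hz :=
    ⟨_, pg_prime e v, (plc_pg e v).symm⟩
  set w := vv (plc e hz) with hw
  have hu1 : w ((C.u : _ˣ) : (plc e hz).adicCompletion K) < 1 := by
    rw [← hu]
    exact (mem_max _ _).1 hu₀
  have hu2 : w ((C.u : _ˣ) : (plc e hz).adicCompletion K) ≤ exp (-1 : ℤ) := by
    rw [← exp_zero] at hu1
    have := lt_succ hu1
    simpa using this
  obtain ⟨⟨W₀, hW₀⟩⟩ := hC
  have hint : ∀ a : (plc e hz).adicCompletionIntegers K,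
      w (algebraMap _ ((plc e hz).adicCompletion K) a) ≤ 1 := fun a =>
    (HeightOneSpectrum.mem_adicCompletionIntegers (𝓞 K) K (plc e hz)).1 a.2
  have b1 : w (C • q4 (ph e hz (em0 e (D ^ 2)))).a₁ ≤ 1 := by
    rw [hW₀]; exact hint _
  have b2 : w (C • q4 (ph e hz (em0 e (D ^ 2)))).a₂ ≤ 1 := by
    rw [hW₀]; exact hint _
  have b3 : w (C • q4 (ph e hz (em0 e (D ^ 2)))).a₃ ≤ 1 := by
    rw [hW₀]; exact hint _
  have b4 : w (C • q4 (ph e hz (em0 e (D ^ 2)))).a₄ ≤ 1 := by
    rw [hW₀]; exact hint _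
  have b6 : w (C • q4 (ph e hz (em0 e (D ^ 2)))).a₆ ≤ 1 := by
    rw [hW₀]; exact hint _
  have bΔ : w (C • q4 (ph e hz (em0 e (D ^ 2)))).Δ ≤ 1 := by
    rw [hW₀]
    have : (W₀.baseChange ((plc e hz).adicCompletion K)).Δ =
        algebraMap _ ((plc e hz).adicCompletion K) W₀.Δ := WeierstrassCurve.map_Δ _ _
    rw [this]
    exact hint _
  obtain ⟨u, hu'⟩ : ∃ u : (plc e hz).adicCompletion K, u = ((C.u : _ˣ) : (plc e hz).adicCompletion K) :=
    ⟨_, rfl⟩
  have hu0 : u ≠ 0 := by rw [hu']; exact C.u.ne_zero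
  have huinv : ((C.u⁻¹ : _ˣ) : (plc e hz).adicCompletion K) = u⁻¹ := by
    rw [Units.val_inv_eq_inv_val, hu']
  rw [← hu'] at hu2
  by_cases h2 : z ∣ 2
  · -- above two
    have hpl := dvd_pi_of_two e (K := K) hz h2
    have hL2 := l2_place e _ hpl
    have hn := near_one e hD3 _ hpl
    have hA : w (ph e hz (em0 e (D ^ 2)) - 1) ≤ exp (-5 : ℤ) := by
      rw [map_pow, map_pow]
      exact hL2.A hn
    refine hL2.change (r := C.r) (s := C.s) (t := C.t) hu0 hu2 hA ?_ ?_ ?_ ?_ ?_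
    · rw [WeierstrassCurve.variableChange_a₁, huinv] at b1
      simpa [q4] using b1
    · rw [WeierstrassCurve.variableChange_a₂, huinv] at b2
      simpa [q4] using b2
    · rw [WeierstrassCurve.variableChange_a₃, huinv] at b3
      simpa [q4] using b3
    · rw [WeierstrassCurve.variableChange_a₄, huinv] at b4
      simpa [q4] using b4
    · rw [WeierstrassCurve.variableChange_a₆, huinv] at b6
      simpa [q4] using b6
  · -- away from two: the discriminant
    rw [WeierstrassCurve.variableChange_Δ, huinv, q4_Δ, map_mul, map_pow, map_inv₀, inv_pow] at bΔ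
    have hwu : w u ≠ 0 := (Valuation.ne_zero_iff _).2 hu0
    have h64 : w (-64 * ph e hz (em0 e (D ^ 2)) ^ 3) ≤ w u ^ 12 := by
      have h5 : w (-64 * ph e hz (em0 e (D ^ 2)) ^ 3) =
          w u ^ 12 * ((w u ^ 12)⁻¹ * w (-64 * ph e hz (em0 e (D ^ 2)) ^ 3)) := by
        rw [← mul_assoc, mul_inv_cancel₀ (pow_ne_zero 12 hwu), one_mul]
      rw [h5]
      exact mul_le_of_le_one_right' bΔ
    have hw2 : w (2 : (plc e hz).adicCompletion K) = 1 := by
      have := val_one e hz h2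
      rw [map_ofNat] at this
      have h3 : (2 : (plc e hz).adicCompletion K) = ph e hz 2 := (map_ofNat _ 2).symm
      rw [hw, h3, vv_coe, this]
    have hw64 : w (-64 : (plc e hz).adicCompletion K) = 1 := by
      have : (-64 : (plc e hz).adicCompletion K) = -(2 ^ 6) := by norm_num
      rw [this, Valuation.map_neg, map_pow, hw2, one_pow]
    have hwD : exp (-1 : ℤ) ≤ w (ph e hz (em0 e D)) := by
      by_cases hd : z ∣ D
      · rw [hw, vv_coe, val_sqf e hz hsq hd]
      · rw [hw, vv_coe, val_one e hz hd, ← exp_zero, exp_le_exp]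
        norm_num
    rw [map_mul, hw64, one_mul, map_pow, map_pow (em0 e), map_pow, map_pow w] at h64
    have h12 : (exp (-6 : ℤ) : ℤᵐ⁰) ≤ exp (-12 : ℤ) := by
      calc (exp (-6 : ℤ) : ℤᵐ⁰) = ((exp (-1 : ℤ)) ^ 2) ^ 3 := by
            rw [← exp_nsmul, ← exp_nsmul]; rfl
        _ ≤ (w (ph e hz (em0 e D)) ^ 2) ^ 3 := by gcongr
        _ ≤ w u ^ 12 := h64
        _ ≤ (exp (-1 : ℤ)) ^ 12 := by gcongr
        _ = exp (-12 : ℤ) := by rw [← exp_nsmul]; rfl
    rw [exp_le_exp] at h12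
    norm_num at h12

/-- **the Tamagawa numbers** -/
theorem tamD {D : ZI} (hsq : Squarefree D) (hP : ∀ z : ZI, Prime z → z ∣ D → ¬ z ∣ 2)
    (hD3 : pi1 ^ 3 ∣ D - 1) (v : HeightOneSpectrum (𝓞 K)) :
    ∃ H : AddSubgroup (q4 (algebraMap K (v.adicCompletion K) (em0 e (D ^ 2)))).toAffine.Point,
      (∀ P, P ∈ H ↔ NonsingRed (vv v)
        (q4 (algebraMap K (v.adicCompletion K) (em0 e (D ^ 2)))) P) ∧
      H.index = if e D ∈ v.asIdeal then 4 else if e 2 ∈ v.asIdeal then 2 else 1 := by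
  obtain ⟨z, hz, rfl⟩ : ∃ (z : ZI) (hz : Prime z), v = plc e hz :=
    ⟨_, pg_prime e v, (plc_pg e v).symm⟩
  set w := vv (plc e hz) with hw
  have hchar : CharZero ((plc e hz : HeightOneSpectrum (𝓞 K)).adicCompletion K) :=
    Pool.Agent.Y682.charZero_adic (plc e hz)
  have hD1 : w (ph e hz (em0 e (D ^ 2))) ≤ 1 := by rw [hw, vv_coe]; exact val_le e hz _
  obtain ⟨H, hH⟩ := Pool.Agent.Y891.CTK.sub_of w (q4 (ph e hz (em0 e (D ^ 2))))
    (by simp [q4]) (by simp [q4]) (by simp [q4]) (by simpa [q4] using hD1) (by simp [q4])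
  refine ⟨H, hH, ?_⟩
  have hI : (ph e hz (em0 e im1)) ^ 2 = -1 := by
    rw [← map_pow, im1_sq, map_neg, map_one]
  have hpw : ph e hz (em0 e (D ^ 2)) = (ph e hz (em0 e D)) ^ 2 := by
    rw [map_pow, map_pow]
  by_cases hd : z ∣ D
  · rw [if_pos ((plc_mem e hz D).2 hd)]
    have h2 : w (2 : (plc e hz).adicCompletion K) = 1 := by
      have := val_one e hz (hP z hz hd)
      rw [map_ofNat] at this
      have h2 : (2 : (plc e hz).adicCompletion K) = ph e hz 2 := (map_ofNat _ 2).symm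
      rw [hw, h2, vv_coe, this]
    have hδ : w (ph e hz (em0 e D)) = exp (-1 : ℤ) := by
      rw [hw, vv_coe, val_sqf e hz hsq hd]
    have key : ∀ A : (plc e hz).adicCompletion K, A = (ph e hz (em0 e D)) ^ 2 →
        ∀ H : AddSubgroup (q4 A).toAffine.Point, (∀ P, P ∈ H ↔ NonsingRed w (q4 A) P) →
          H.index = 4 := by
      rintro A rfl H hH
      exact index_four h2 hI hδ H hH
    exact key _ hpw H hH
  · rw [if_neg (fun h => hd ((plc_mem e hz D).1 h))]
    by_cases h2 : z ∣ 2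
    · rw [if_pos ((plc_mem e hz 2).2 h2)]
      have hpl := dvd_pi_of_two e (K := K) hz h2
      have hL2 := l2_place e _ hpl
      have hn := near_one e hD3 _ hpl
      have key : ∀ A : (plc e hz).adicCompletion K, A = (ph e hz (em0 e D)) ^ 2 →
          ∀ H : AddSubgroup (q4 A).toAffine.Point, (∀ P, P ∈ H ↔ NonsingRed w (q4 A) P) →
            H.index = 2 := by
        rintro A rfl H hH
        exact hL2.index_two hn H hH
      exact key _ hpw H hH
    · rw [if_neg (fun h => h2 ((plc_mem e hz 2).1 h)), AddSubgroup.index_eq_one]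
      have hD' : w (ph e hz (em0 e (D ^ 2))) = 1 := by
        rw [hw, vv_coe, val_one e hz (fun h => hd (hz.dvd_of_dvd_pow h))]
      apply SetLike.ext
      intro P
      rw [hH]
      refine ⟨fun _ => AddSubgroup.mem_top _, fun _ => ns_good ?_ hD' P⟩
      have := val_one e hz h2
      rw [map_ofNat] at this
      have h3 : (2 : (plc e hz).adicCompletion K) = ph e hz 2 := (map_ofNat _ 2).symm
      rw [hw, h3, vv_coe, this]

/-- the Tamagawa numbers -/
noncomputable def cD (D : ZI) (v : HeightOneSpectrum (𝓞 K)) : ℕ :=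
  if e D ∈ v.asIdeal then 4 else if e 2 ∈ v.asIdeal then 2 else 1

/-- the product of the Tamagawa numbers -/
theorem cD_prod {S : Finset GaussianInt} (hS : ∀ l ∈ S, OP l) :
    {v : HeightOneSpectrum (𝓞 K) | cD e (∏ l ∈ S, l) v ≠ 1}.Finite ∧
    ∏ᶠ v : HeightOneSpectrum (𝓞 K), cD e (∏ l ∈ S, l) v = 2 * 4 ^ S.card := by
  set pls : Finset (HeightOneSpectrum (𝓞 K)) :=
    (Finset.univ : Finset S).image (fun l => plc e (hS l.1 l.2).pr) with hpls
  set v2 : HeightOneSpectrum (𝓞 K) := plc e pi1_prime with hv2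
  have hmem : ∀ v : HeightOneSpectrum (𝓞 K), v ∈ pls ↔ e (∏ l ∈ S, l) ∈ v.asIdeal := by
    intro v
    rw [hpls, Finset.mem_image]
    constructor
    · rintro ⟨l, -, rfl⟩
      exact (plc_mem e _ _).2 (Finset.dvd_prod_of_mem _ l.2)
    · intro hv
      have hz := pg_prime e v
      have hzD : pg e v ∣ ∏ l ∈ S, l := (mem_iff e (pg_span e v) _).1 hv
      obtain ⟨l, hl, hzl⟩ := (hz.dvd_finsetProd_iff _).1 hzD
      refine ⟨⟨l, hl⟩, Finset.mem_univ _, ?_⟩
      apply HeightOneSpectrum.ext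
      show Ideal.span {e l} = v.asIdeal
      rw [pg_span e v, Ideal.span_singleton_eq_span_singleton]
      exact (hz.associated_of_dvd (hS l hl).pr hzl).symm.map (e : ZI →* 𝓞 K)
  have hinj : Function.Injective (fun l : S => (plc e (hS l.1 l.2).pr : HeightOneSpectrum (𝓞 K))) := by
    intro a b hab
    have h1 : (plc e (hS a.1 a.2).pr : HeightOneSpectrum (𝓞 K)).asIdeal =
        (plc e (hS b.1 b.2).pr).asIdeal := congrArg HeightOneSpectrum.asIdeal hab
    have h2 : e (a : ZI) ∣ e (b : ZI) := by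
      rw [← Ideal.mem_span_singleton]
      have : Ideal.span {e (a : ZI)} = Ideal.span {e (b : ZI)} := h1
      rw [this]
      exact Ideal.mem_span_singleton_self _
    have h3 : (a : ZI) ∣ b := by
      have := map_dvd e.symm h2
      simpa using this
    exact Subtype.ext ((hS a.1 a.2).dvd (hS b.1 b.2) h3)
  have hcard : pls.card = S.card := by
    rw [hpls, Finset.card_image_of_injective _ hinj, Finset.card_univ, Fintype.card_coe]
  have h2mem : ∀ v : HeightOneSpectrum (𝓞 K), e 2 ∈ v.asIdeal ↔ v = v2 := by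
    intro v
    constructor
    · intro hv
      have h1 : pg e v ∣ 2 := (mem_iff e (pg_span e v) _).1 hv
      rw [← plc_pg e v]
      exact dvd_pi_of_two e (pg_prime e v) h1
    · rintro rfl
      exact (plc_mem e _ _).2 ⟨pi1 * (-im1), by decide⟩
  have hv2 : v2 ∉ pls := by
    rw [hmem]
    intro h
    have h1 : pi1 ∣ ∏ l ∈ S, l := (plc_mem e pi1_prime _).1 h
    exact not_two hS pi1_prime h1 ⟨pi1 * (-im1), by decide⟩
  have hval1 : ∀ v ∈ pls, cD e (∏ l ∈ S, l) v = 4 := fun v hv => if_pos ((hmem v).1 hv)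
  have hval2 : cD e (∏ l ∈ S, l) v2 = 2 := by
    unfold cD
    rw [if_neg (fun h => hv2 ((hmem v2).2 h)), if_pos ((h2mem v2).2 rfl)]
  have hsub : ∀ v : HeightOneSpectrum (𝓞 K), cD e (∏ l ∈ S, l) v ≠ 1 → v ∈ insert v2 pls := by
    intro v hv
    rw [Finset.mem_insert]
    by_contra h
    push Not at h
    apply hv
    unfold cD
    rw [if_neg (fun h' => h.2 ((hmem v).2 h')), if_neg (fun h' => h.1 ((h2mem v).1 h'))]
  refine ⟨(Finset.finite_toSet (insert v2 pls)).subset fun v hv => hsub v hv, ?_⟩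
  rw [finprod_eq_prod_of_mulSupport_subset (s := insert v2 pls) _ (fun v hv => hsub v hv),
    Finset.prod_insert hv2, hval2, Finset.prod_congr rfl hval1, Finset.prod_const, hcard]

end

end Pool.Agent.R428.G
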