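import Mathlib
import Pool.Agent.R428.G.Gm
import Pool.Agent.Y715.Z.Lser
import Pool.Agent.Y697.MQ.KL1

/-!
# The `L`-series of `y² = x³ + D² x` over `ℚ(i)`
-/

set_option autoImplicit false
set_option linter.unusedSectionVars false

open NumberField IsDedekindDomain

namespace Pool.Agent.R428.G

open scoped Classical
open WeierstrassCurve
open Pool.Agent.Y699
open Pool.Agent.Y698 (AP min_count v_unit)
open Pool.Agent.W189.NF (aV eV redMap Ov mem_max_iff finite_res card_res redMap_eq_zero aLoc eLoc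
  redMap_surjective)
open Pool.Agent.H921R2.TatePole (nm two_le_nm)
open H385 (ZI RQ im1 nrm)
open Pool.Agent.Y696 (HBd LSeries_hasProd')
open Pool.Agent.Y715.Z (em0 em0_ne em0_apply q4 q4_Δ q4_map q4_c₄ q4_j not_good_of_min min_addj
  coe_comp' isUnit_of_notMem' val_lt_of_mem val_int_le resE resE_mk cr4_mapL plc_mem)
open Pool.Agent.Y697.MQ (OP leg ci lt Yp eulerA eulerA_z normSq_G norm_odd lt_Yp conj_Yp
  exists_L ch_eq leg_ne ci_ne diff_conj prim_iff_Pr)

section main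

variable {K : Type} [Field K] [NumberField K] (e : ZI ≃+* 𝓞 K)

/-- the count of points at a good place -/
lemma good_count {p : ZI} (hp : OP p) {D : ZI} (hD : ¬ p ∣ D) (v : HeightOneSpectrum (𝓞 K))
    (hv : v.asIdeal = Ideal.span {e p}) :
    ((nm v : ℤ) - (cnt4 v (Ideal.Quotient.mk v.asIdeal (e (D ^ 2))) : ℤ) : ℂ) =
      ((ci p * leg p D : ℤ) : ℂ) * ((p : ℂ) + (starRingEnd ℂ) (p : ℂ)) ∧
    ((nm v : ℕ) : ℂ) = (p : ℂ) * (starRingEnd ℂ) (p : ℂ) := by
  have hpv : (e : ZI →+* 𝓞 K) p ∈ v.asIdeal := by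
    rw [hv]; exact Ideal.mem_span_singleton_self _
  have hN : Ideal.absNorm v.asIdeal = p.norm.natAbs := norm_pg e hv
  have h1 := eulerA_z (e : ZI →+* 𝓞 K) hp v hpv hD 1 (by rw [pow_one]; exact hN) 0
  have hst : (((star p : GaussianInt)) : ℂ) = (starRingEnd ℂ) (p : ℂ) := GaussianInt.toComplex_star p
  have hpp : ((nm v : ℕ) : ℂ) = (p : ℂ) * (starRingEnd ℂ) (p : ℂ) := by
    rw [Complex.mul_conj, normSq_G]
    have : nm v = p.norm.natAbs := hN
    rw [this]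
    push_cast
    rfl
  refine ⟨?_, hpp⟩
  unfold eulerA at h1
  rw [inv_inj] at h1
  have hY : ∀ g : ZI, Yp 0 g = (g : ℂ) := by
    intro g
    unfold Yp
    rw [neg_zero, Complex.cpow_zero, mul_one]
  rw [hY, hY, hst, pow_one, pow_one, neg_zero, Complex.cpow_zero, mul_one, mul_zero, sub_zero,
    Complex.cpow_one] at h1
  have hnm : nm v = Ideal.absNorm v.asIdeal := rfl
  rw [hnm] at hpp ⊢
  have hε : ((ci p * leg p D : ℤ) : ℂ) ^ 2 = 1 := by
    rcases ci_ne hp.pm with h | h <;> rcases leg_ne hD with h' | h' <;> rw [h, h'] <;> norm_num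
  have hc : (Nat.card {q : (𝓞 K ⧸ v.asIdeal) × (𝓞 K ⧸ v.asIdeal) //
      q.2 ^ 2 = q.1 ^ 3 + Ideal.Quotient.mk v.asIdeal ((e : ZI →+* 𝓞 K) (D ^ 2)) * q.1} : ℕ) =
      cnt4 v (Ideal.Quotient.mk v.asIdeal (e (D ^ 2))) := rfl
  rw [hc] at h1
  push_cast at h1 hε ⊢
  rw [hpp] at h1 ⊢
  linear_combination -h1 - ((p : ℂ) * (starRingEnd ℂ) (p : ℂ)) * hε

/-- the local factors at the places dividing `2 D` -/
theorem locB {D : ZI} (hsq : Squarefree D) (hP : ∀ z : ZI, Prime z → z ∣ D → ¬ z ∣ 2)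
    (hD3 : pi1 ^ 3 ∣ D - 1) (v : HeightOneSpectrum (𝓞 K)) (hb : pg e v = pi1 ∨ pg e v ∣ D) :
    aV (q4 (em0 e (D ^ 2))) v = 0 ∧ eV (q4 (em0 e (D ^ 2))) v = 0 := by
  have hsp := pg_span e v
  have hmin := minD e hsq hP hD3 v
  have hbc : (q4 (em0 e (D ^ 2))).baseChange (v.adicCompletion K) =
      q4 (algebraMap K (v.adicCompletion K) (em0 e (D ^ 2))) := q4_map _ _
  have hΔ : (cr4 (e (D ^ 2))).Δ ∈ v.asIdeal := by
    rw [cr4_Δ]
    have e1 : (-64 : 𝓞 K) * e (D ^ 2) ^ 3 = e (-64 * (D ^ 2) ^ 3) := by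
      simp only [map_mul, map_pow, map_neg, map_ofNat]
    rw [e1, mem_iff e hsp]
    rcases hb with h | h
    · rw [h]
      exact (pi1_two.trans ⟨-32, by decide⟩).mul_right _
    · exact (dvd_pow (dvd_pow h two_ne_zero) (by norm_num)).mul_left _
  have hΔv : algebraMap K (v.adicCompletion K) (((cr4 (e (D ^ 2))).Δ : 𝓞 K) : K) =
      (q4 (algebraMap K (v.adicCompletion K) (em0 e (D ^ 2)))).Δ := by
    rw [cr4_Δ, q4_Δ]
    show algebraMap K (v.adicCompletion K) (algebraMap (𝓞 K) K ((-64 : 𝓞 K) * e (D ^ 2) ^ 3)) = _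
    rw [map_mul, map_mul, map_neg, map_neg, map_ofNat, map_ofNat, map_pow, map_pow]
    rfl
  unfold aV eV
  rw [hbc]
  refine min_addj (v.adicCompletionIntegers K)
    (not_good_of_min (v.adicCompletionIntegers K) ?_) (j := 1728) ?_ (q4_j _)
  · rw [← hΔv]
    exact val_lt_of_mem hΔ
  · have := val_int_le v (1728 : 𝓞 K)
    rw [show ((1728 : 𝓞 K) : K) = (1728 : K) from map_ofNat _ _, map_ofNat] at this
    exact this

/-- the local factors at the other places -/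
theorem locG {p : ZI} (hp : OP p) {D : ZI} (hD : ¬ p ∣ D) (v : HeightOneSpectrum (𝓞 K))
    (hv : v.asIdeal = Ideal.span {e p}) :
    ((aV (q4 (em0 e (D ^ 2))) v : ℤ) : ℂ) =
      ((ci p * leg p D : ℤ) : ℂ) * ((p : ℂ) + (starRingEnd ℂ) (p : ℂ)) ∧
    ((eV (q4 (em0 e (D ^ 2))) v : ℤ) : ℂ) = (p : ℂ) * (starRingEnd ℂ) (p : ℂ) ∧
    ((nm v : ℕ) : ℂ) = (p : ℂ) * (starRingEnd ℂ) (p : ℂ) := by
  obtain ⟨g1, g2⟩ := good_count e hp hD v hv
  have hbc : (q4 (em0 e (D ^ 2))).baseChange (v.adicCompletion K) =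
      q4 (algebraMap K (v.adicCompletion K) (em0 e (D ^ 2))) := q4_map _ _
  have hfin := finite_res v
  have hunit : IsUnit ((cr4 (algebraMap (𝓞 K) (Ov v) (e (D ^ 2)))).Δ) := by
    have h0 : (cr4 (e (D ^ 2))).Δ ∉ v.asIdeal := by
      rw [cr4_Δ]
      have e1 : (-64 : 𝓞 K) * e (D ^ 2) ^ 3 = e (-64 * (D ^ 2) ^ 3) := by
        simp only [map_mul, map_pow, map_neg, map_ofNat]
      rw [e1, mem_iff e hv]
      intro h
      rcases hp.pr.dvd_or_dvd h with h4 | h4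
      · have e5 : (-64 : ZI) = -(2 ^ 6) := by decide
        rw [e5, dvd_neg] at h4
        exact hp.two (hp.pr.dvd_of_dvd_pow h4)
      · exact hD (hp.pr.dvd_of_dvd_pow (hp.pr.dvd_of_dvd_pow h4))
    have h3 := isUnit_of_notMem' h0
    rw [cr4_Δ] at h3 ⊢
    rw [map_mul, map_neg, map_ofNat, map_pow] at h3
    exact h3
  obtain ⟨c1, c2⟩ := min_count (v.adicCompletionIntegers K) hunit
    (W := (q4 (em0 e (D ^ 2))).baseChange (v.adicCompletion K)) (by
      rw [hbc, cr4_mapL, coe_comp']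
      rfl)
  have hAP : Nat.card (AP ((cr4 (algebraMap (𝓞 K) (Ov v) (e (D ^ 2)))).map
      (IsLocalRing.residue (Ov v)))) = cnt4 v (Ideal.Quotient.mk v.asIdeal (e (D ^ 2))) := by
    unfold cnt4 AP
    refine (Nat.card_congr (Equiv.subtypeEquiv
      (Equiv.prodCongr (resE v).toEquiv (resE v).toEquiv) fun x => ?_)).symm
    rw [cr4_map, WeierstrassCurve.Affine.equation_iff]
    unfold cr4
    simp only [zero_mul, add_zero]
    show _ ↔ (resE v x.2) ^ 2 = (resE v x.1) ^ 3 + (redMap v (e (D ^ 2))) * resE v x.1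
    rw [← resE_mk, ← map_pow, ← map_pow, ← map_mul, ← map_add, (resE v).injective.eq_iff]
  have ha : aV (q4 (em0 e (D ^ 2))) v = (nm v : ℤ) -
      (cnt4 v (Ideal.Quotient.mk v.asIdeal (e (D ^ 2))) : ℤ) := by
    unfold aV
    rw [c1, hAP, card_res]
  have he : eV (q4 (em0 e (D ^ 2))) v = (nm v : ℤ) := by
    unfold eV
    rw [c2, card_res]
  refine ⟨?_, ?_, g2⟩
  · rw [ha]
    push_cast at g1 ⊢
    exact g1
  · rw [he]
    push_cast
    exact g2

/-- the bounds for the local factors -/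
theorem hbd {S : Finset GaussianInt} (hS : ∀ l ∈ S, OP l) (v : HeightOneSpectrum (𝓞 K)) :
    HBd (aV (q4 (em0 e ((∏ l ∈ S, l) ^ 2))) v) (eV (q4 (em0 e ((∏ l ∈ S, l) ^ 2))) v) (nm v) := by
  by_cases hb : pg e v = pi1 ∨ pg e v ∣ ∏ l ∈ S, l
  · exact Or.inl (locB e (sqf_prod hS) (fun z hz h => not_two hS hz h) (pi_dvd hS) v hb)
  · push Not at hb
    have hp : OP (pg e v) := by
      rcases pg_cases e v with ⟨h1, h2⟩ | ⟨h1, h2⟩
      · exact absurd h2 hb.1
      · obtain ⟨a1, a2, -, -⟩ := Pool.Agent.W164.RC.Ip_spec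
          (Pool.Agent.H921R2.TatePole.below v).2 h2
        exact ⟨a2, (prim_iff_Pr _).1 a1⟩
    obtain ⟨g1, g2, g3⟩ := locG e hp hb.2 v (pg_span e v)
    have hε : ((ci (pg e v) * leg (pg e v) (∏ l ∈ S, l) : ℤ) : ℂ) ^ 2 = 1 := by
      rcases ci_ne hp.pm with h | h <;> rcases leg_ne hb.2 with h' | h' <;> rw [h, h'] <;> norm_num
    set ε : ℤ := ci (pg e v) * leg (pg e v) (∏ l ∈ S, l) with hεd
    refine Or.inr ⟨(ε : ℂ) * (pg e v : ℂ), ?_, ?_, ?_⟩
    · rw [g1, map_mul, map_intCast]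
      ring
    · rw [g2, map_mul, map_intCast]
      linear_combination (-((pg e v : ℂ) * (starRingEnd ℂ) (pg e v : ℂ))) * hε
    · rw [g3, map_mul, map_intCast]
      linear_combination ((pg e v : ℂ) * (starRingEnd ℂ) (pg e v : ℂ)) * hε

/-- the values of `lt` -/
lemma lt_val {S : Finset GaussianInt} (hS : ∀ l ∈ S, OP l) {p : ZI} (hp : OP p) (s : ℂ) :
    lt S s p = if p ∣ ∏ l ∈ S, l then 0 else
      ((ci p * leg p (∏ l ∈ S, l) : ℤ) : ℂ) * ((p : ℂ) * ((p.norm.natAbs : ℕ) : ℂ) ^ (-s)) := by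
  split_ifs with h
  · have hpS : p ∈ S := by
      obtain ⟨l, hl, hpl⟩ := (hp.pr.dvd_finsetProd_iff _).1 h
      rw [hp.dvd (hS l hl) hpl]
      exact hl
    have h0 : Pool.Agent.Y697.MQ.ch S p = 0 := by
      unfold Pool.Agent.Y697.MQ.ch
      rw [Finset.prod_eq_zero (f := fun q => leg q p) hpS
        (Pool.Agent.Y697.MQ.leg_eq_zero.2 (dvd_refl p)), mul_zero]
    rw [lt_Yp, h0]
    simp
  · have hpS : p ∉ S := fun h' => h (Finset.dvd_prod_of_mem _ h')
    rw [lt_Yp, ch_eq hS hp hpS]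
    unfold Yp
    rw [normSq_G]
    push_cast
    rfl

/-- **the `L`-series** -/
theorem lser2 {S : Finset GaussianInt} (hS : ∀ l ∈ S, OP l) {F : ℂ → ℂ}
    (hF : ∀ z : ℂ, 3 / 2 < z.re → HasProd (fun q : {q : GaussianInt // OP q} =>
      (1 - lt S z q.1)⁻¹) (F z)) {s : ℂ} (hs : 3 / 2 < s.re) :
    LSeriesSummable ((fun n : ℤ => (n : ℂ)) ∘ (q4 (em0 e ((∏ l ∈ S, l) ^ 2))).LFunction) s ∧
      F s * (starRingEnd ℂ) (F ((starRingEnd ℂ) s)) =
        (q4 (em0 e ((∏ l ∈ S, l) ^ 2))).LSeries s := by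
  obtain ⟨h1, h2⟩ := LSeries_hasProd' (q4 (em0 e ((∏ l ∈ S, l) ^ 2))) (fun v => hbd e hS v) hs
  refine ⟨h1, ?_⟩
  have hs' : 3 / 2 < ((starRingEnd ℂ) s).re := by rw [Complex.conj_re]; exact hs
  have h3 : HasProd (fun q : {q : GaussianInt // OP q} => (1 - lt S s q.1)⁻¹ *
      (starRingEnd ℂ) ((1 - lt S ((starRingEnd ℂ) s) q.1)⁻¹))
      (F s * (starRingEnd ℂ) (F ((starRingEnd ℂ) s))) :=
    (hF s hs).mul ((hF _ hs').map (starRingEnd ℂ) Complex.continuous_conj)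
  set f : HeightOneSpectrum (𝓞 K) → ℂ := fun v =>
    (1 - (aV (q4 (em0 e ((∏ l ∈ S, l) ^ 2))) v : ℂ) * (nm v : ℂ) ^ (-s) +
      (eV (q4 (em0 e ((∏ l ∈ S, l) ^ 2))) v : ℂ) * ((nm v : ℂ) ^ (-s)) ^ 2)⁻¹ with hf
  set g : {q : GaussianInt // OP q} → HeightOneSpectrum (𝓞 K) := fun q => plc e q.2.pr with hg
  have hginj : Function.Injective g := by
    intro a b hab
    have h1 : (plc e a.2.pr : HeightOneSpectrum (𝓞 K)).asIdeal =
        (plc e b.2.pr).asIdeal := congrArg HeightOneSpectrum.asIdeal hab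
    have h2 : e (a : ZI) ∣ e (b : ZI) := by
      rw [← Ideal.mem_span_singleton]
      have : Ideal.span {e (a : ZI)} = Ideal.span {e (b : ZI)} := h1
      rw [this]
      exact Ideal.mem_span_singleton_self _
    have h3 : (a : ZI) ∣ b := by
      have := map_dvd e.symm h2
      simpa using this
    exact Subtype.ext (a.2.dvd b.2 h3)
  have hout : ∀ v ∉ Set.range g, f v = 1 := by
    intro v hv
    have hb : pg e v = pi1 := by
      rcases pg_cases e v with ⟨h1, h2⟩ | ⟨h1, h2⟩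
      · exact h2
      · exfalso
        obtain ⟨a1, a2, -, -⟩ := Pool.Agent.W164.RC.Ip_spec
          (Pool.Agent.H921R2.TatePole.below v).2 h2
        exact hv ⟨⟨pg e v, ⟨a2, (prim_iff_Pr _).1 a1⟩⟩, plc_pg e v⟩
    obtain ⟨a0, e0⟩ := locB e (sqf_prod hS) (fun z hz h => not_two hS hz h) (pi_dvd hS) v
      (Or.inl hb)
    simp only [hf, a0, e0]
    simp
  have hcomp : ∀ q : {q : GaussianInt // OP q}, f (g q) = (1 - lt S s q.1)⁻¹ *
      (starRingEnd ℂ) ((1 - lt S ((starRingEnd ℂ) s) q.1)⁻¹) := by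
    rintro ⟨p, hp⟩
    set v : HeightOneSpectrum (𝓞 K) := plc e hp.pr with hv
    have hvs : v.asIdeal = Ideal.span {e p} := rfl
    show f v = _
    rw [map_inv₀, map_sub, map_one, ← mul_inv, lt_val hS hp, lt_val hS hp]
    by_cases hD : p ∣ ∏ l ∈ S, l
    · have hb : pg e v = pi1 ∨ pg e v ∣ ∏ l ∈ S, l := by
        right
        have h4 : e p ∈ v.asIdeal := by rw [hvs]; exact Ideal.mem_span_singleton_self _
        have h5 : pg e v ∣ p := (mem_iff e (pg_span e v) p).1 h4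
        exact h5.trans hD
      obtain ⟨a0, e0⟩ := locB e (sqf_prod hS) (fun z hz h => not_two hS hz h) (pi_dvd hS) v hb
      simp only [hf, a0, e0, if_pos hD]
      simp
    · obtain ⟨g1, g2, g3⟩ := locG e hp hD v hvs
      have hε : ((ci p * leg p (∏ l ∈ S, l) : ℤ) : ℂ) ^ 2 = 1 := by
        rcases ci_ne hp.pm with h | h <;> rcases leg_ne hD with h' | h' <;> rw [h, h'] <;> norm_num
      have hnm : nm v = p.norm.natAbs := norm_pg e hvs
      simp only [hf]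
      rw [g1, g2, if_neg hD, if_neg hD]
      set ε : ℤ := ci p * leg p (∏ l ∈ S, l) with hεd
      have hcp : (starRingEnd ℂ) (((p.norm.natAbs : ℕ) : ℂ) ^ (-((starRingEnd ℂ) s))) =
          ((p.norm.natAbs : ℕ) : ℂ) ^ (-s) := by
        have h1 := Complex.cpow_conj ((p.norm.natAbs : ℕ) : ℂ) (-((starRingEnd ℂ) s)) (by
          rw [Complex.natCast_arg]
          exact Real.pi_pos.ne)
        rw [map_natCast, map_neg, Complex.conj_conj] at h1
        exact h1.symm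
      rw [map_mul, map_mul, map_intCast, hcp, hnm]
      congr 1
      linear_combination ((p : ℂ) * (starRingEnd ℂ) (p : ℂ) *
        (((p.norm.natAbs : ℕ) : ℂ) ^ (-s)) ^ 2) * (-hε)
  have h4 : HasProd f (F s * (starRingEnd ℂ) (F ((starRingEnd ℂ) s))) := by
    rw [← hginj.hasProd_iff hout]
    refine h3.congr_fun fun q => ?_
    exact hcomp q
  exact h4.unique h2

end main

end Pool.Agent.R428.G
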